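import Pool.Agent.W685.RT.Api
import Pool.Agent.W74.RT.RT4
import Pool.Agent.W347.RT.PolyCompact

/-!
Existence of the parameters.
-/

set_option autoImplicit false

noncomputable section

namespace Pool.Agent.W685.RT

open Finset

/-- auxiliary recursion for `v` -/
def vAux (l : ℕ → ℕ) : ℕ → ℕ → ℕ
  | 0 => fun _ => 0
  | q + 1 => Function.update (vAux l q) (q + 1)
      (2 * (3 * vAux l q q + 1 + vAux l q (l q)))

lemma vAux_stable (l : ℕ → ℕ) {q p : ℕ} (h : q ≤ p) : vAux l p q = vAux l q q := by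
  induction p with
  | zero =>
    have : q = 0 := by omega
    subst this; rfl
  | succ p ih =>
    rcases h.eq_or_lt with h | h
    · rw [h]
    · rw [vAux, Function.update_of_ne (by omega)]
      exact ih (by omega)

theorem exists_par : Nonempty Par := by
  obtain ⟨l, hl, hG1, hG2⟩ := Pool.Agent.W74.RT.exists_l
  set v : ℕ → ℕ := fun q => vAux l q q with hv
  have hv0 : v 0 = 0 := rfl
  have hvs : ∀ q, v (q + 1) = 2 * mm v l q := by
    intro q
    show vAux l (q + 1) (q + 1) = _
    rw [vAux, Function.update_self, vAux_stable l (hl q)]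
    rfl
  -- bounds for the polynomials
  have hP : ∀ (q : ℕ) (x : ℝ), ∃ P : ℝ, 0 ≤ P ∧ (1 ≤ x → ∀ y : ℕ → ℂ,
      ∑ k ∈ range (mm v l q + 1), ‖y k‖ ≤ 2 * Bd v q x →
      1 / (2 ^ q * (v q + 1) * Bd v q x) ≤ ∑ k ∈ range (v q + 1), ‖y k‖ →
      ∃ p : ℕ → ℂ, (∀ s, s < hh v q → p s = 0) ∧
        ∑ s ∈ range (mm v l q + 1), ‖p s‖ ≤ P ∧
        ∑ n ∈ range (mm v l q + 1), ‖∑ s ∈ range (n + 1), p s * y (n - s)
          - (if n = aa v q then ((x : ℝ) : ℂ) else 0)‖ ≤ 1 / (q + 1)) := by
    intro q x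
    by_cases hx : 1 ≤ x
    · have hB := Bd_pos (v := v) (q := q) hx
      obtain ⟨P, hP0, hP⟩ := Pool.Agent.W347.RT.poly_compact (v q) (hh v q) (mm v l q)
        (by unfold hh mm; omega) (2 * Bd v q x) (1 / (2 ^ q * (v q + 1) * Bd v q x))
        (1 / (q + 1)) ((x : ℝ) : ℂ) (by positivity) (by positivity)
      refine ⟨P, hP0, fun _ y h1 h2 => ?_⟩
      obtain ⟨p, h3, h4, h5⟩ := hP y h1 h2
      refine ⟨p, h3, h4, ?_⟩
      have : v q + hh v q = aa v q := by unfold hh aa; omega
      rw [this] at h5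
      exact h5
    · exact ⟨0, le_rfl, fun h => absurd h hx⟩
  choose PP hPP0 hPP using hP
  -- the recursion
  set lamF : ℕ → ℝ → ℝ := fun q D => bg v q D with hlamF
  set MF : ℕ → ℝ → ℝ := fun q D => bg v q (lamF q D) + PP q (lamF q D) with hMF
  set rhoF : ℕ → ℝ → ℝ := fun q D => bg v q (MF q D) with hrhoF
  set D : ℕ → ℝ := fun q => Nat.rec (motive := fun _ => ℝ) 2 (fun q D => bg v q (rhoF q D)) q with hD
  have hself : ∀ (q : ℕ) (x : ℝ), 2 ≤ x → 2 ≤ bg v q x := by
    intro q x hx
    have h1 : (1 : ℝ) ≤ x := by linarith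
    have h2 := bg_ge_self (v := v) (q := q) h1
    have h3 := one_le_Bd (v := v) (q := q) h1
    nlinarith
  have hD2 : ∀ q, 2 ≤ D q := by
    intro q
    induction q with
    | zero => exact le_rfl
    | succ q ih =>
      show 2 ≤ bg v q (rhoF q (D q))
      refine hself _ _ (hself _ _ ?_)
      have := hself q _ (hself q _ ih)
      have h5 := hPP0 q (lamF q (D q))
      show 2 ≤ bg v q (lamF q (D q)) + PP q (lamF q (D q))
      exact le_trans this (le_add_of_nonneg_right h5)
  refine ⟨{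
    l := l
    v := v
    D := D
    lam := fun q => lamF q (D q)
    M := fun q => MF q (D q)
    rho := fun q => rhoF q (D q)
    P := fun q => PP q (lamF q (D q))
    l_le := hl
    v_zero := hv0
    v_succ := hvs
    G1 := hG1
    G2 := hG2
    D_ge := hD2
    lam_ge := fun q => le_rfl
    M_ge := fun q => le_add_of_nonneg_right (hPP0 q _)
    rho_ge := fun q => le_rfl
    D_succ_ge := fun q => le_rfl
    P_nonneg := fun q => hPP0 q _
    P_le := fun q => ?_
    P_spec := fun q => hPP q _ ?_ }⟩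
  · refine le_add_of_nonneg_left ?_
    have := hself q _ (hself q _ (hD2 q))
    exact le_trans (by norm_num) this
  · have := hself q _ (hD2 q)
    exact le_trans (by norm_num) this

end Pool.Agent.W685.RT
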