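import Pool.Agent.W685.RT.L1

/-!
`ℓ¹` is separable and infinite-dimensional.
-/

set_option autoImplicit false

noncomputable section

namespace Pool.Agent.W685.RT

open Finset Filter Topology

lemma mem_closure_span_f (x : L1) :
    x ∈ closure (Submodule.span ℂ (Set.range f) : Set L1) := by
  refine mem_closure_of_tendsto (hasSum_f x) (Eventually.of_forall fun s => ?_)
  exact Submodule.sum_mem _ fun i _ => Submodule.smul_mem _ _ (Submodule.subset_span ⟨i, rfl⟩)

instance separable_L1 : TopologicalSpace.SeparableSpace L1 := by
  have h1 : TopologicalSpace.IsSeparable (Set.range f : Set L1) :=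
    (Set.countable_range f).isSeparable
  have h2 := h1.span (R := ℂ)
  have h3 := h2.closure
  have h4 : closure (Submodule.span ℂ (Set.range f) : Set L1) = Set.univ :=
    Set.eq_univ_of_forall mem_closure_span_f
  rw [h4] at h3
  exact TopologicalSpace.isSeparable_univ_iff.1 h3

lemma linearIndependent_f : LinearIndependent ℂ f := by
  rw [linearIndependent_iff']
  intro s c h i hi
  have h1 : (∑ j ∈ s, c j • f j : L1) i = 0 := by rw [h]; rfl
  have h2 : ∀ s' : Finset ℕ, (∑ j ∈ s', c j • f j : L1) i = ∑ j ∈ s', c j * (f j : ℕ → ℂ) i := by
    intro s'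
    induction s' using Finset.induction_on with
    | empty => rfl
    | insert a s' ha ih =>
      rw [Finset.sum_insert ha, Finset.sum_insert ha, ← ih]
      rfl
  rw [h2] at h1
  simp only [f_apply] at h1
  simpa [hi] using h1

lemma not_finiteDimensional_L1 : ¬ FiniteDimensional ℂ L1 := by
  intro h
  have := linearIndependent_f.finite
  exact not_finite ℕ

end Pool.Agent.W685.RT
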