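import Pool.Agent.W685.RT.Dense
import Pool.Agent.W685.RT.Space
import Pool.Agent.W347.RT.RankOne
import Pool.Agent.W349.RT.Entire

/-!
The operator `T` on `ℓ¹` answers the question on rank-one perturbations.
-/

set_option autoImplicit false

noncomputable section

namespace Pool.Agent.W685.RT

theorem final (R : Par) : spectrum ℂ R.T = {0} ∧ ∀ F : L1 →L[ℂ] L1,
    Module.finrank ℂ (LinearMap.range (F : L1 →ₗ[ℂ] L1)) = 1 → spectrum ℂ (R.T + F) ≠ {0} :=
  Pool.Agent.W347.RT.not_main_of L1 not_finiteDimensional_L1 R.T 2 R.norm_T_pow_le R.dense_orbit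
    (fun c C hc hz => Pool.Agent.W349.RT.coeff_zero_of_zero_free c C hc hz)

end Pool.Agent.W685.RT
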