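import Pool.Agent.W685.RT.Defs

/-!
Basic facts on the parameters, the blocks and the vectors `e i`.
-/

set_option autoImplicit false

noncomputable section

namespace Pool.Agent.W685.RT

open Finset

lemma W_pos (m : ℕ) : 0 < W m := by unfold W; positivity

lemma one_le_W (m : ℕ) : 1 ≤ W m := by
  unfold W; exact one_le_pow₀ (by norm_num)

lemma W_mono {m n : ℕ} (h : m ≤ n) : W m ≤ W n := by
  unfold W; exact pow_le_pow_right₀ (by norm_num) (Nat.pow_le_pow_left h 2)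

lemma W_mul (m n : ℕ) : W m * W n ≤ W (m + n) := by
  unfold W
  rw [← pow_add]
  exact pow_le_pow_right₀ (by norm_num) (by nlinarith [Nat.zero_le (m * n)])

lemma W_zero : W 0 = 1 := by simp [W]

lemma Bd_ge {v : ℕ → ℕ} {q : ℕ} {x : ℝ} (hx : 1 ≤ x) :
    (q + 2) * W (v (q + 1)) * x ≤ Bd v q x := by
  unfold Bd
  have h1 : x ≤ x ^ (2 * v (q + 1) + 1) := by
    calc x = x ^ 1 := (pow_one x).symm
      _ ≤ _ := pow_le_pow_right₀ hx (by omega)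
  have h2 : 0 < ((q : ℝ) + 2) * W (v (q + 1)) := by
    have := W_pos (v (q + 1)); positivity
  exact mul_le_mul_of_nonneg_left h1 h2.le

lemma one_le_Bd {v : ℕ → ℕ} {q : ℕ} {x : ℝ} (hx : 1 ≤ x) : 1 ≤ Bd v q x := by
  refine le_trans ?_ (Bd_ge hx)
  have h1 := one_le_W (v (q + 1))
  have h2 : (1 : ℝ) ≤ (q : ℝ) + 2 := by
    have : (0 : ℝ) ≤ q := Nat.cast_nonneg q
    linarith
  exact one_le_mul_of_one_le_of_one_le (one_le_mul_of_one_le_of_one_le h2 h1) hx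

lemma Bd_pos {v : ℕ → ℕ} {q : ℕ} {x : ℝ} (hx : 1 ≤ x) : 0 < Bd v q x :=
  lt_of_lt_of_le one_pos (one_le_Bd hx)

lemma Bd_mono {v : ℕ → ℕ} {q : ℕ} {x y : ℝ} (hx : 1 ≤ x) (hxy : x ≤ y) :
    Bd v q x ≤ Bd v q y := by
  unfold Bd
  have h2 : 0 < ((q : ℝ) + 2) * W (v (q + 1)) := by
    have := W_pos (v (q + 1)); positivity
  exact mul_le_mul_of_nonneg_left (pow_le_pow_left₀ (by linarith) hxy _) h2.le

/-- the three ways in which `bg` is used -/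
lemma bg_ge_mul {v : ℕ → ℕ} {q : ℕ} {x : ℝ} (hx : 1 ≤ x) :
    2 * W (v (q + 1)) * (x * Bd v q x) ≤ bg v q x := by
  unfold bg
  have h1 := one_le_W (v (q + 1))
  have h3 := one_le_Bd (v := v) (q := q) hx
  have h4 : (0 : ℝ) ≤ q := Nat.cast_nonneg q
  have h5 : x ≤ ((q : ℝ) + 1) * x ^ 2 := by nlinarith
  have h6 : 0 ≤ 2 * W (v (q + 1)) * Bd v q x := by positivity
  nlinarith [mul_le_mul_of_nonneg_left h5 h6]

lemma bg_ge_sq {v : ℕ → ℕ} {q : ℕ} {x : ℝ} (hx : 1 ≤ x) :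
    2 * (q + 1) * (x ^ 2 * Bd v q x) ≤ bg v q x := by
  unfold bg
  have h1 := one_le_W (v (q + 1))
  have h3 := one_le_Bd (v := v) (q := q) hx
  have h4 : (0 : ℝ) ≤ q := Nat.cast_nonneg q
  have h6 : 0 ≤ 2 * ((q : ℝ) + 1) * x ^ 2 * Bd v q x := by positivity
  nlinarith [mul_le_mul_of_nonneg_left h1 h6]

lemma bg_ge_self {v : ℕ → ℕ} {q : ℕ} {x : ℝ} (hx : 1 ≤ x) : x * Bd v q x ≤ bg v q x := by
  refine le_trans ?_ (bg_ge_mul hx)
  have h1 := one_le_W (v (q + 1))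
  have h3 := Bd_pos (v := v) (q := q) hx
  have h6 : 0 ≤ x * Bd v q x := by positivity
  nlinarith

namespace Par

variable (R : Par)

/-! ### indices -/

lemma v_lt (q : ℕ) : R.v q < R.v (q + 1) := by
  rw [R.v_succ]; unfold mm; omega

lemma v_strictMono : StrictMono R.v := strictMono_nat_of_lt_succ R.v_lt

lemma v_mono {p q : ℕ} (h : p ≤ q) : R.v p ≤ R.v q := R.v_strictMono.monotone h

lemma vl_le (q : ℕ) : R.v (R.l q) ≤ R.v q := R.v_mono (R.l_le q)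

lemma le_v (q : ℕ) : q ≤ R.v q := R.v_strictMono.id_le q

lemma exists_stage (i : ℕ) : ∃ q, i ≤ R.v (q + 1) :=
  ⟨i, (R.le_v i).trans (R.v_mono (Nat.le_succ i))⟩

lemma le_g (i : ℕ) : i ≤ R.v (R.g i + 1) := by
  have : R.g i ∈ {q | i ≤ R.v (q + 1)} := Nat.sInf_mem (R.exists_stage i)
  exact this

lemma g_lt {i : ℕ} (hi : 0 < i) : R.v (R.g i) < i := by
  by_contra hcon
  push Not at hcon
  rcases Nat.eq_zero_or_pos (R.g i) with h | h
  · rw [h, R.v_zero] at hcon; omega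
  · have h2 : R.g i - 1 ∈ {q | i ≤ R.v (q + 1)} := by
      show i ≤ R.v (R.g i - 1 + 1)
      rw [Nat.sub_add_cancel h]; exact hcon
    have h3 : R.g i ≤ R.g i - 1 := Nat.sInf_le h2
    omega

lemma g_eq {q i : ℕ} (h1 : R.v q < i) (h2 : i ≤ R.v (q + 1)) : R.g i = q := by
  have h3 := R.le_g i
  have h4 := R.g_lt (i := i) (by omega)
  have h5 : R.v q < R.v (R.g i + 1) := by omega
  have h6 : R.v (R.g i) < R.v (q + 1) := by omega
  have h7 := R.v_strictMono.lt_iff_lt.1 h5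
  have h8 := R.v_strictMono.lt_iff_lt.1 h6
  omega

lemma g_zero : R.g 0 = 0 := by
  have : R.g 0 ≤ 0 := Nat.sInf_le (show 0 ≤ R.v (0 + 1) by omega)
  omega

lemma le_g_of_lt {q i : ℕ} (h : R.v q < i) : q ≤ R.g i := by
  have h3 := R.le_g i
  have h5 : R.v q < R.v (R.g i + 1) := by omega
  have h7 := R.v_strictMono.lt_iff_lt.1 h5
  omega

lemma g_lt_of_le {q i : ℕ} (hi : 0 < i) (h : i ≤ R.v q) : R.g i < q := by
  have h3 := R.g_lt hi
  have h5 : R.v (R.g i) < R.v q := by omega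
  exact R.v_strictMono.lt_iff_lt.1 h5

lemma g_mono {i j : ℕ} (h : i ≤ j) : R.g i ≤ R.g j := by
  rcases Nat.eq_zero_or_pos i with h0 | h0
  · rw [h0, g_zero]; omega
  · exact R.le_g_of_lt (lt_of_lt_of_le (R.g_lt h0) h)

/-! ### parameters -/

lemma one_le_D (q : ℕ) : 1 ≤ R.D q := by linarith [R.D_ge q]

/-- threshold at the a-fan -/
def TA (q : ℕ) : ℝ := R.D q * Bd R.v q (R.D q)

/-- threshold at the b-fan -/
def TR (q : ℕ) : ℝ := R.M q * Bd R.v q (R.M q)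

lemma D_le_TA (q : ℕ) : R.D q ≤ R.TA q := by
  unfold TA
  have := one_le_Bd (v := R.v) (q := q) (R.one_le_D q)
  nlinarith [R.one_le_D q]

lemma TA_le_lam (q : ℕ) : 2 * W (R.v (q + 1)) * R.TA q ≤ R.lam q :=
  (bg_ge_mul (R.one_le_D q)).trans (R.lam_ge q)

lemma TA_le_lam' (q : ℕ) : R.TA q ≤ R.lam q :=
  (bg_ge_self (R.one_le_D q)).trans (R.lam_ge q)

lemma D_le_lam (q : ℕ) : R.D q ≤ R.lam q := (R.D_le_TA q).trans (R.TA_le_lam' q)

lemma one_le_lam (q : ℕ) : 1 ≤ R.lam q := (R.one_le_D q).trans (R.D_le_lam q)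

lemma lamBd_le_M (q : ℕ) : R.lam q * Bd R.v q (R.lam q) ≤ R.M q :=
  (bg_ge_self (R.one_le_lam q)).trans (R.M_ge q)

lemma lam_le_M (q : ℕ) : R.lam q ≤ R.M q := by
  refine le_trans ?_ (R.lamBd_le_M q)
  have := one_le_Bd (v := R.v) (q := q) (R.one_le_lam q)
  nlinarith [R.one_le_lam q]

lemma one_le_M (q : ℕ) : 1 ≤ R.M q := (R.one_le_lam q).trans (R.lam_le_M q)

lemma M_le_TR (q : ℕ) : R.M q ≤ R.TR q := by
  unfold TR
  have := one_le_Bd (v := R.v) (q := q) (R.one_le_M q)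
  nlinarith [R.one_le_M q]

lemma TR_le_rho (q : ℕ) : 2 * W (R.v (q + 1)) * R.TR q ≤ R.rho q :=
  (bg_ge_mul (R.one_le_M q)).trans (R.rho_ge q)

lemma TR_le_rho' (q : ℕ) : R.TR q ≤ R.rho q :=
  (bg_ge_self (R.one_le_M q)).trans (R.rho_ge q)

lemma M_le_rho (q : ℕ) : R.M q ≤ R.rho q := (R.M_le_TR q).trans (R.TR_le_rho' q)

lemma one_le_rho (q : ℕ) : 1 ≤ R.rho q := (R.one_le_M q).trans (R.M_le_rho q)

lemma rhoBd_le_D (q : ℕ) : 2 * (q + 1) * (R.rho q ^ 2 * Bd R.v q (R.rho q)) ≤ R.D (q + 1) :=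
  (bg_ge_sq (R.one_le_rho q)).trans (R.D_succ_ge q)

lemma rhoBd_le_D' (q : ℕ) : R.rho q ^ 2 * Bd R.v q (R.rho q) ≤ R.D (q + 1) := by
  refine le_trans ?_ (R.rhoBd_le_D q)
  have h3 := one_le_Bd (v := R.v) (q := q) (R.one_le_rho q)
  have h4 : (0 : ℝ) ≤ q := Nat.cast_nonneg q
  have h6 : 0 ≤ R.rho q ^ 2 * Bd R.v q (R.rho q) := by positivity
  nlinarith

lemma rho_sq_le_D (q : ℕ) : R.rho q ^ 2 ≤ R.D (q + 1) := by
  refine le_trans ?_ (R.rhoBd_le_D' q)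
  have h3 := one_le_Bd (v := R.v) (q := q) (R.one_le_rho q)
  have h4 := R.one_le_rho q
  nlinarith [sq_nonneg (R.rho q)]

lemma rho_le_sq (q : ℕ) : R.rho q ≤ R.rho q ^ 2 := by
  have h4 := R.one_le_rho q
  nlinarith

lemma rho_le_D (q : ℕ) : R.rho q ≤ R.D (q + 1) := (R.rho_le_sq q).trans (R.rho_sq_le_D q)

lemma D_le_succ (q : ℕ) : R.D q ≤ R.D (q + 1) :=
  (R.D_le_lam q).trans ((R.lam_le_M q).trans ((R.M_le_rho q).trans (R.rho_le_D q)))

lemma D_mono {p q : ℕ} (h : p ≤ q) : R.D p ≤ R.D q := monotone_nat_of_le_succ R.D_le_succ h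

lemma rho_le_D_of_lt {p q : ℕ} (h : p < q) : R.rho p ^ 2 ≤ R.D q :=
  (R.rho_sq_le_D p).trans (R.D_mono h)

lemma D_le_rho (q : ℕ) : R.D q ≤ R.rho q :=
  (R.D_le_lam q).trans ((R.lam_le_M q).trans (R.M_le_rho q))

lemma rho_mono {p q : ℕ} (h : p ≤ q) : R.rho p ≤ R.rho q := by
  rcases h.eq_or_lt with h | h
  · rw [h]
  · exact (R.rho_le_sq p).trans ((R.rho_le_D_of_lt h).trans (R.D_le_rho q))

end Par

end Pool.Agent.W685.RT
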