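import Pool.Agent.W685.RT.Api

/-!
The blocks, the coefficients and the vectors `e i`.
-/

set_option autoImplicit false

noncomputable section

namespace Pool.Agent.W685.RT

open Finset

namespace Par

variable (R : Par)

/-- start of the a-fan -/
abbrev a (q : ℕ) : ℕ := aa R.v q
/-- end of the a-fan -/
abbrev m (q : ℕ) : ℕ := mm R.v R.l q
/-- start of the b-fan minus `m q` -/
abbrev h (q : ℕ) : ℕ := hh R.v q

lemma a_def (q : ℕ) : R.a q = 3 * R.v q + 1 := rfl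
lemma m_def (q : ℕ) : R.m q = 3 * R.v q + 1 + R.v (R.l q) := rfl
lemma h_def (q : ℕ) : R.h q = 2 * R.v q + 1 := rfl
lemma v_succ' (q : ℕ) : R.v (q + 1) = 2 * R.m q := R.v_succ q

lemma a_le_m (q : ℕ) : R.a q ≤ R.m q := by rw [a_def, m_def]; omega
lemma v_lt_a (q : ℕ) : R.v q < R.a q := by rw [a_def]; omega
lemma m_le (q : ℕ) : R.m q ≤ 4 * R.v q + 1 := by
  have := R.vl_le q; rw [m_def]; omega
lemma m_lt_2h (q : ℕ) : R.m q < 2 * R.h q := by
  have := R.m_le q; rw [h_def]; omega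
lemma h_le_a (q : ℕ) : R.h q ≤ R.a q := by rw [h_def, a_def]; omega
lemma h_le_m (q : ℕ) : R.h q ≤ R.m q := (R.h_le_a q).trans (R.a_le_m q)

/-! ### the four blocks -/

lemma blk_L1 {q i : ℕ} (h1 : R.v q < i) (h2 : i < R.a q) :
    R.al i = W i * R.D q ^ i ∧ R.sg i = 0 := by
  have h3 := R.v_succ' q
  have h4 := R.a_le_m q
  have hg := R.g_eq h1 (by omega)
  have hi : i ≠ 0 := by omega
  unfold al sg
  rw [hg, if_neg hi, if_pos h2, if_neg hi, if_pos h2]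
  exact ⟨rfl, rfl⟩

lemma blk_A {q j : ℕ} (hj : j ≤ R.v (R.l q)) :
    R.al (R.a q + j) = R.w j * (R.l q + 1) * R.lam q ∧
    R.sg (R.a q + j) = R.w j * (R.l q + 1) ∧ R.rf (R.a q + j) = j := by
  have h3 := R.v_succ' q
  have h5 := R.m_def q
  have h6 := R.a_def q
  have hg : R.g (R.a q + j) = q := R.g_eq (by omega) (by omega)
  have hi : R.a q + j ≠ 0 := by omega
  have h7 : ¬ (R.a q + j < R.a q) := by omega
  have h8 : R.a q + j ≤ R.m q := by omega
  unfold al sg rf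
  rw [hg, if_neg hi, if_neg h7, if_pos h8, if_neg hi, if_neg h7, if_pos h8, if_neg hi, if_neg h7,
    if_pos h8]
  have : R.a q + j - R.a q = j := by omega
  refine ⟨?_, ?_, this⟩
  · show R.w (R.a q + j - R.a q) * _ * _ = _
    rw [this]
  · show R.w (R.a q + j - R.a q) * _ = _
    rw [this]

lemma blk_L2 {q i : ℕ} (h1 : R.m q < i) (h2 : i < R.m q + R.h q) :
    R.al i = W i * R.M q ^ i ∧ R.sg i = 0 := by
  have h3 := R.v_succ' q
  have h4 := R.a_le_m q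
  have h5 := R.v_lt_a q
  have h6 := R.h_le_m q
  have hg := R.g_eq (q := q) (i := i) (by omega) (by omega)
  have hi : i ≠ 0 := by omega
  have h7 : ¬ (i < R.a q) := by omega
  have h8 : ¬ (i ≤ R.m q) := by omega
  unfold al sg
  rw [hg, if_neg hi, if_neg h7, if_neg h8, if_pos h2, if_neg hi, if_neg h7, if_neg h8, if_pos h2]
  exact ⟨rfl, rfl⟩

lemma blk_B {q j : ℕ} (h1 : R.h q ≤ j) (h2 : j ≤ R.m q) :
    R.al (R.m q + j) = W j * R.M q ^ j * R.rho q ∧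
    R.sg (R.m q + j) = W j * R.M q ^ j ∧ R.rf (R.m q + j) = j := by
  have h3 := R.v_succ' q
  have h4 := R.a_le_m q
  have h5 := R.v_lt_a q
  have h6 := R.h_def q
  have hg := R.g_eq (q := q) (i := R.m q + j) (by omega) (by omega)
  have hi : R.m q + j ≠ 0 := by omega
  have h7 : ¬ (R.m q + j < R.a q) := by omega
  have h8 : ¬ (R.m q + j ≤ R.m q) := by omega
  have h9 : ¬ (R.m q + j < R.m q + R.h q) := by omega
  unfold al sg rf
  rw [hg, if_neg hi, if_neg h7, if_neg h8, if_neg h9, if_neg hi, if_neg h7, if_neg h8, if_neg h9,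
    if_neg hi, if_neg h7, if_neg h8, if_neg h9]
  have : R.m q + j - R.m q = j := by omega
  refine ⟨?_, ?_, this⟩
  · show W (R.m q + j - R.m q) * R.M q ^ (R.m q + j - R.m q) * _ = _
    rw [this]
  · show W (R.m q + j - R.m q) * R.M q ^ (R.m q + j - R.m q) = _
    rw [this]

lemma al_zero : R.al 0 = 1 := by simp [al]
lemma sg_zero : R.sg 0 = 0 := by simp [sg]

/-- case distinction -/
lemma blocks {i : ℕ} (hi : 0 < i) :
    ∃ q, (R.v q < i ∧ i < R.a q) ∨ (∃ j, j ≤ R.v (R.l q) ∧ i = R.a q + j) ∨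
      (R.m q < i ∧ i < R.m q + R.h q) ∨ (∃ j, R.h q ≤ j ∧ j ≤ R.m q ∧ i = R.m q + j) := by
  refine ⟨R.g i, ?_⟩
  have h1 := R.g_lt hi
  have h2 := R.le_g i
  have h3 := R.v_succ' (R.g i)
  have h5 := R.m_def (R.g i)
  have h6 := R.a_def (R.g i)
  by_cases c1 : i < R.a (R.g i)
  · exact Or.inl ⟨h1, c1⟩
  by_cases c2 : i ≤ R.m (R.g i)
  · exact Or.inr (Or.inl ⟨i - R.a (R.g i), by omega, by omega⟩)
  by_cases c3 : i < R.m (R.g i) + R.h (R.g i)
  · exact Or.inr (Or.inr (Or.inl ⟨by omega, c3⟩))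
  · exact Or.inr (Or.inr (Or.inr ⟨i - R.m (R.g i), by omega, by omega, by omega⟩))

/-- case distinction inside a stage -/
lemma blocks_of {q i : ℕ} (h1 : R.v q < i) (h2 : i ≤ R.v (q + 1)) :
    (R.v q < i ∧ i < R.a q) ∨ (∃ j, j ≤ R.v (R.l q) ∧ i = R.a q + j) ∨
      (R.m q < i ∧ i < R.m q + R.h q) ∨ (∃ j, R.h q ≤ j ∧ j ≤ R.m q ∧ i = R.m q + j) := by
  have h3 := R.v_succ' q
  have h5 := R.m_def q
  have h6 := R.a_def q
  by_cases c1 : i < R.a q
  · exact Or.inl ⟨h1, c1⟩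
  by_cases c2 : i ≤ R.m q
  · exact Or.inr (Or.inl ⟨i - R.a q, by omega, by omega⟩)
  by_cases c3 : i < R.m q + R.h q
  · exact Or.inr (Or.inr (Or.inl ⟨by omega, c3⟩))
  · exact Or.inr (Or.inr (Or.inr ⟨i - R.m q, by omega, by omega, by omega⟩))

lemma rf_lt {i : ℕ} (hi : 0 < i) : R.rf i < i := by
  unfold rf
  rw [if_neg (by omega)]
  split_ifs with c1 c2 c3
  · exact hi
  · have := R.a_def (R.g i)
    show i - R.a (R.g i) < i
    omega
  · exact hi
  · have := R.m_def (R.g i)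
    show i - R.m (R.g i) < i
    omega

/-! ### the weights `w` -/

lemma w_pos (j : ℕ) : 0 < R.w j := by
  unfold w
  have := W_pos j
  have := R.one_le_rho (R.g j)
  positivity

lemma one_le_w (j : ℕ) : 1 ≤ R.w j := by
  unfold w
  refine one_le_mul_of_one_le_of_one_le (one_le_W j) (one_le_pow₀ (one_le_pow₀ (R.one_le_rho _)))

lemma w_zero : R.w 0 = 1 := by simp [w, W_zero]

/-- growth of the weights -/
lemma w_growth (j t : ℕ) : R.w j * (W t * (R.rho (R.g (j + t)) ^ 2) ^ t) ≤ R.w (j + t) := by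
  unfold w
  have h1 := W_mul j t
  have h2 : (R.rho (R.g j) ^ 2) ^ j ≤ (R.rho (R.g (j + t)) ^ 2) ^ j := by
    have := R.rho_mono (R.g_mono (Nat.le_add_right j t))
    have h0 := R.one_le_rho (R.g j)
    gcongr
  have h3 : 0 ≤ (R.rho (R.g (j + t)) ^ 2) ^ t := by positivity
  calc W j * (R.rho (R.g j) ^ 2) ^ j * (W t * (R.rho (R.g (j + t)) ^ 2) ^ t)
      = (W j * W t) * ((R.rho (R.g j) ^ 2) ^ j * (R.rho (R.g (j + t)) ^ 2) ^ t) := by ring
    _ ≤ W (j + t) * ((R.rho (R.g (j + t)) ^ 2) ^ j * (R.rho (R.g (j + t)) ^ 2) ^ t) := by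
        have := W_pos (j + t)
        gcongr
    _ = _ := by rw [← pow_add]

lemma w_le_D {q j : ℕ} (hj : j ≤ R.v q) : R.w j ≤ W (R.v q) * R.D q ^ R.v q := by
  unfold w
  have hD := R.one_le_D q
  rcases Nat.eq_zero_or_pos j with h0 | h0
  · subst h0
    rw [W_zero, pow_zero, mul_one]
    exact one_le_mul_of_one_le_of_one_le (one_le_W _) (one_le_pow₀ hD)
  · have h1 := R.g_lt_of_le h0 hj
    have h2 := R.rho_le_D_of_lt h1
    have h3 := R.one_le_rho (R.g j)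
    have h4 := W_mono hj
    have h5 := W_pos j
    have h6 := W_pos (R.v q)
    calc W j * (R.rho (R.g j) ^ 2) ^ j ≤ W (R.v q) * R.D q ^ j := by gcongr
      _ ≤ _ := by gcongr

lemma w_le_rho {q j : ℕ} (hj : j ≤ R.v (q + 1)) :
    R.w j ≤ W (R.v (q + 1)) * R.rho q ^ (2 * R.v (q + 1)) := by
  unfold w
  have hD := R.one_le_rho q
  rcases Nat.eq_zero_or_pos j with h0 | h0
  · subst h0
    rw [W_zero, pow_zero, mul_one]
    exact one_le_mul_of_one_le_of_one_le (one_le_W _) (one_le_pow₀ hD)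
  · have h1 := R.g_lt_of_le h0 hj
    have h2 := R.rho_mono (Nat.lt_succ_iff.1 h1)
    have h3 := R.one_le_rho (R.g j)
    have h4 := W_mono hj
    have h5 := W_pos j
    have h6 := W_pos (R.v (q + 1))
    calc W j * (R.rho (R.g j) ^ 2) ^ j ≤ W (R.v (q + 1)) * (R.rho q ^ 2) ^ j := by gcongr
      _ ≤ W (R.v (q + 1)) * (R.rho q ^ 2) ^ (R.v (q + 1)) := by
        gcongr
        exact one_le_pow₀ hD
      _ = _ := by rw [← pow_mul]

/-! ### bounds for the coefficients -/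

lemma vl_le' (q : ℕ) : R.v (R.l q) ≤ R.v (q + 1) := (R.vl_le q).trans (R.v_lt q).le

lemma wl_le_Bd_D {q j : ℕ} (hj : j ≤ R.v (R.l q)) : R.w j * (R.l q + 1) ≤ Bd R.v q (R.D q) := by
  have hD := R.one_le_D q
  have h1 := R.w_le_D (q := q) (hj.trans (R.vl_le q))
  have h2 : (R.l q : ℝ) + 1 ≤ q + 2 := by
    have : (R.l q : ℝ) ≤ q := by exact_mod_cast R.l_le q
    linarith
  have h3 : W (R.v q) ≤ W (R.v (q + 1)) := W_mono (R.v_lt q).le
  have h4 : R.D q ^ R.v q ≤ R.D q ^ (2 * R.v (q + 1) + 1) :=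
    pow_le_pow_right₀ hD (by have := R.v_lt q; omega)
  have h5 := W_pos (R.v q)
  have h6 := W_pos (R.v (q + 1))
  have h7 : (0 : ℝ) ≤ (R.l q : ℝ) + 1 := by positivity
  calc R.w j * (R.l q + 1) ≤ (W (R.v q) * R.D q ^ R.v q) * (R.l q + 1) := by gcongr
    _ ≤ (W (R.v (q + 1)) * R.D q ^ (2 * R.v (q + 1) + 1)) * (q + 2) := by gcongr
    _ = _ := by unfold Bd; ring

lemma w_le_Bd_D {q j : ℕ} (hj : j ≤ R.v q) : R.w j * (q + 1) ≤ Bd R.v q (R.D q) := by
  have hD := R.one_le_D q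
  have h1 := R.w_le_D (q := q) hj
  have h2 : (q : ℝ) + 1 ≤ q + 2 := by linarith
  have h3 : W (R.v q) ≤ W (R.v (q + 1)) := W_mono (R.v_lt q).le
  have h4 : R.D q ^ R.v q ≤ R.D q ^ (2 * R.v (q + 1) + 1) :=
    pow_le_pow_right₀ hD (by have := R.v_lt q; omega)
  have h5 := W_pos (R.v q)
  have h6 := W_pos (R.v (q + 1))
  calc R.w j * (q + 1) ≤ (W (R.v q) * R.D q ^ R.v q) * (q + 1) := by gcongr
    _ ≤ (W (R.v (q + 1)) * R.D q ^ (2 * R.v (q + 1) + 1)) * (q + 2) := by gcongr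
    _ = _ := by unfold Bd; ring

lemma w_le_Bd_rho {q j : ℕ} (hj : j ≤ R.v (q + 1)) : R.w j * (q + 2) ≤ Bd R.v q (R.rho q) := by
  have hD := R.one_le_rho q
  have h1 := R.w_le_rho (q := q) hj
  have h4 : R.rho q ^ (2 * R.v (q + 1)) ≤ R.rho q ^ (2 * R.v (q + 1) + 1) :=
    pow_le_pow_right₀ hD (by omega)
  have h6 := W_pos (R.v (q + 1))
  calc R.w j * (q + 2) ≤ (W (R.v (q + 1)) * R.rho q ^ (2 * R.v (q + 1))) * (q + 2) := by gcongr
    _ ≤ (W (R.v (q + 1)) * R.rho q ^ (2 * R.v (q + 1) + 1)) * (q + 2) := by gcongr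
    _ = _ := by unfold Bd; ring

/-- elementary bound for a layoff coefficient -/
lemma Wpow_le_Bd {q j : ℕ} {x : ℝ} (hx : 1 ≤ x) (hj : j ≤ R.v (q + 1)) :
    W j * x ^ j * x ≤ Bd R.v q x := by
  have h4 : x ^ (j + 1) ≤ x ^ (2 * R.v (q + 1) + 1) :=
    pow_le_pow_right₀ hx (by omega)
  have h5 := W_mono hj
  have h6 := W_pos (R.v (q + 1))
  have h7 := W_pos j
  have hq : (0 : ℝ) ≤ q := Nat.cast_nonneg q
  calc W j * x ^ j * x = W j * x ^ (j + 1) := by ring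
    _ ≤ W (R.v (q + 1)) * x ^ (2 * R.v (q + 1) + 1) := by gcongr
    _ ≤ (q + 2) * (W (R.v (q + 1)) * x ^ (2 * R.v (q + 1) + 1)) := by
        have : 0 ≤ W (R.v (q + 1)) * x ^ (2 * R.v (q + 1) + 1) := by positivity
        nlinarith
    _ = _ := by unfold Bd; ring

lemma Wpow_le_Bd' {q j : ℕ} {x : ℝ} (hx : 1 ≤ x) (hj : j ≤ R.v (q + 1)) :
    W j * x ^ j ≤ Bd R.v q x := by
  refine le_trans ?_ (R.Wpow_le_Bd hx hj)
  have h7 := W_pos j
  have : 0 ≤ W j * x ^ j := by positivity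
  nlinarith

lemma x_le_Bd {q : ℕ} {x : ℝ} (hx : 1 ≤ x) : x ≤ Bd R.v q x := by
  have := R.Wpow_le_Bd (q := q) (j := 0) hx (by omega)
  simpa [W_zero] using this

lemma stage_aux {q i : ℕ} (_h : i ≤ R.v (q + 1)) (hq : i ≤ R.v q ∨ R.v q < i) :
    i ≤ R.v q ∨ R.v q < i := hq

lemma wlam_le {q j : ℕ} (hj : j ≤ R.v (R.l q)) :
    R.w j * (R.l q + 1) * R.lam q ≤ Bd R.v q (R.lam q) := by
  have hD := R.one_le_D q
  have hl := R.one_le_lam q
  have hDl := R.D_le_lam q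
  have h1 := R.w_le_D (q := q) (hj.trans (R.vl_le q))
  have h2 : (R.l q : ℝ) + 1 ≤ q + 2 := by
    have : (R.l q : ℝ) ≤ q := by exact_mod_cast R.l_le q
    linarith
  have h3 : W (R.v q) ≤ W (R.v (q + 1)) := W_mono (R.v_lt q).le
  have h4 : R.D q ^ R.v q ≤ R.lam q ^ (2 * R.v (q + 1)) := by
    calc R.D q ^ R.v q ≤ R.lam q ^ R.v q := by gcongr
      _ ≤ _ := pow_le_pow_right₀ hl (by have := R.v_lt q; omega)
  have h5 := W_pos (R.v q)
  have h6 := W_pos (R.v (q + 1))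
  calc R.w j * (R.l q + 1) * R.lam q
      ≤ (W (R.v q) * R.D q ^ R.v q) * (R.l q + 1) * R.lam q := by gcongr
    _ ≤ (W (R.v (q + 1)) * R.lam q ^ (2 * R.v (q + 1))) * (q + 2) * R.lam q := by gcongr
    _ = _ := by unfold Bd; ring

/-- coefficients of a whole stage, in terms of `rho` -/
lemma al_le_rho {q i : ℕ} (hi : i ≤ R.v (q + 1)) : R.al i ≤ Bd R.v q (R.rho q) := by
  induction q using Nat.strong_induction_on generalizing i with
  | _ q ih =>
    rcases Nat.eq_zero_or_pos i with h0 | h0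
    · subst h0; rw [al_zero]; exact one_le_Bd (R.one_le_rho q)
    rcases le_or_gt i (R.v q) with c | c
    · rcases Nat.eq_zero_or_pos q with hq | hq
      · subst hq; rw [R.v_zero] at c; omega
      · obtain ⟨p, rfl⟩ : ∃ p, q = p + 1 := ⟨q - 1, by omega⟩
        have h1 := ih p (by omega) c
        have h2 := R.rhoBd_le_D' p
        have h3 := R.one_le_rho p
        have h4 := one_le_Bd (v := R.v) (q := p) h3
        have h5 : Bd R.v p (R.rho p) ≤ R.rho p ^ 2 * Bd R.v p (R.rho p) := by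
          have : 1 ≤ R.rho p ^ 2 := one_le_pow₀ h3
          nlinarith
        exact (h1.trans h5).trans (h2.trans ((R.D_le_rho (p + 1)).trans
          (R.x_le_Bd (R.one_le_rho (p + 1)))))
    · have hb := R.blocks_of c hi
      have e1 := (R.D_le_rho q)
      have e2 := (R.lam_le_M q).trans (R.M_le_rho q)
      have e3 := R.M_le_rho q
      rcases hb with ⟨c1, c2⟩ | ⟨j, hj, rfl⟩ | ⟨c1, c2⟩ | ⟨j, hj, hj2, rfl⟩
      · rw [(R.blk_L1 c1 c2).1]
        exact (R.Wpow_le_Bd' (R.one_le_D q) hi).trans (Bd_mono (R.one_le_D q) e1)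
      · rw [(R.blk_A hj).1]
        exact (R.wlam_le hj).trans (Bd_mono (R.one_le_lam q) e2)
      · rw [(R.blk_L2 c1 c2).1]
        exact (R.Wpow_le_Bd' (R.one_le_M q) hi).trans (Bd_mono (R.one_le_M q) e3)
      · rw [(R.blk_B hj hj2).1]
        have h7 := R.one_le_M q
        have h8 := W_pos j
        have h9 := R.one_le_rho q
        calc W j * R.M q ^ j * R.rho q ≤ W j * R.rho q ^ j * R.rho q := by gcongr
          _ ≤ _ := R.Wpow_le_Bd h9 (by have := R.v_succ' q; omega)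

lemma al_le_D_of_le {q i : ℕ} (hi : i ≤ R.v q) : R.al i ≤ R.D q := by
  rcases Nat.eq_zero_or_pos q with hq | hq
  · subst hq
    rw [R.v_zero] at hi
    have : i = 0 := by omega
    subst this
    rw [al_zero]; exact R.one_le_D 0
  · obtain ⟨p, rfl⟩ : ∃ p, q = p + 1 := ⟨q - 1, by omega⟩
    have h1 := R.al_le_rho hi
    have h2 := R.rhoBd_le_D' p
    have h3 := R.one_le_rho p
    have h4 := one_le_Bd (v := R.v) (q := p) h3
    have h5 : Bd R.v p (R.rho p) ≤ R.rho p ^ 2 * Bd R.v p (R.rho p) := by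
      have : 1 ≤ R.rho p ^ 2 := one_le_pow₀ h3
      nlinarith
    exact (h1.trans h5).trans h2

lemma al_le_D {q i : ℕ} (hi : i < R.a q) : R.al i ≤ Bd R.v q (R.D q) := by
  rcases le_or_gt i (R.v q) with c | c
  · exact (R.al_le_D_of_le c).trans (R.x_le_Bd (R.one_le_D q))
  · rw [(R.blk_L1 c hi).1]
    refine R.Wpow_le_Bd' (R.one_le_D q) ?_
    have := R.v_succ' q; have := R.a_le_m q; omega

lemma al_le_lam {q i : ℕ} (hi : i ≤ R.m q) : R.al i ≤ Bd R.v q (R.lam q) := by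
  rcases lt_or_ge i (R.a q) with c | c
  · exact (R.al_le_D c).trans (Bd_mono (R.one_le_D q) (R.D_le_lam q))
  · obtain ⟨j, rfl⟩ : ∃ j, i = R.a q + j := ⟨i - R.a q, by omega⟩
    have hj : j ≤ R.v (R.l q) := by
      have := R.a_def q; have := R.m_def q; omega
    rw [(R.blk_A hj).1]
    exact R.wlam_le hj

lemma al_le_M {q i : ℕ} (hi : i < R.m q + R.h q) : R.al i ≤ Bd R.v q (R.M q) := by
  rcases le_or_gt i (R.m q) with c | c
  · exact (R.al_le_lam c).trans (Bd_mono (R.one_le_lam q) (R.lam_le_M q))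
  · rw [(R.blk_L2 c hi).1]
    refine R.Wpow_le_Bd' (R.one_le_M q) ?_
    have := R.v_succ' q; have := R.h_le_m q; omega

lemma one_le_al (i : ℕ) : 1 ≤ R.al i := by
  rcases Nat.eq_zero_or_pos i with h0 | h0
  · subst h0; rw [al_zero]
  obtain ⟨q, hb⟩ := R.blocks h0
  have h1 := R.one_le_D q
  have h2 := R.one_le_lam q
  have h3 := R.one_le_M q
  have h4 := R.one_le_rho q
  have h5 : (1 : ℝ) ≤ (R.l q : ℝ) + 1 := by
    have : (0 : ℝ) ≤ R.l q := Nat.cast_nonneg _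
    linarith
  rcases hb with ⟨c1, c2⟩ | ⟨j, hj, rfl⟩ | ⟨c1, c2⟩ | ⟨j, hj, hj2, rfl⟩
  · rw [(R.blk_L1 c1 c2).1]
    exact one_le_mul_of_one_le_of_one_le (one_le_W _) (one_le_pow₀ h1)
  · rw [(R.blk_A hj).1]
    exact one_le_mul_of_one_le_of_one_le (one_le_mul_of_one_le_of_one_le (R.one_le_w _) h5) h2
  · rw [(R.blk_L2 c1 c2).1]
    exact one_le_mul_of_one_le_of_one_le (one_le_W _) (one_le_pow₀ h3)
  · rw [(R.blk_B hj hj2).1]
    exact one_le_mul_of_one_le_of_one_le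
      (one_le_mul_of_one_le_of_one_le (one_le_W _) (one_le_pow₀ h3)) h4

lemma al_pos (i : ℕ) : 0 < R.al i := lt_of_lt_of_le one_pos (R.one_le_al i)

lemma sg_nonneg (i : ℕ) : 0 ≤ R.sg i := by
  rcases Nat.eq_zero_or_pos i with h0 | h0
  · subst h0; rw [sg_zero]
  obtain ⟨q, hb⟩ := R.blocks h0
  have h3 := R.one_le_M q
  rcases hb with ⟨c1, c2⟩ | ⟨j, hj, rfl⟩ | ⟨c1, c2⟩ | ⟨j, hj, hj2, rfl⟩
  · rw [(R.blk_L1 c1 c2).2]
  · rw [(R.blk_A hj).2.1]
    have := R.w_pos j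
    positivity
  · rw [(R.blk_L2 c1 c2).2]
  · rw [(R.blk_B hj hj2).2.1]
    have := W_pos j
    positivity

lemma sg_le_al (i : ℕ) : R.sg i ≤ R.al i := by
  rcases Nat.eq_zero_or_pos i with h0 | h0
  · subst h0; rw [sg_zero, al_zero]; norm_num
  obtain ⟨q, hb⟩ := R.blocks h0
  have h2 := R.one_le_lam q
  have h3 := R.one_le_M q
  have h4 := R.one_le_rho q
  rcases hb with ⟨c1, c2⟩ | ⟨j, hj, rfl⟩ | ⟨c1, c2⟩ | ⟨j, hj, hj2, rfl⟩
  · rw [(R.blk_L1 c1 c2).2]; exact (R.al_pos _).le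
  · rw [(R.blk_A hj).2.1, (R.blk_A hj).1]
    have := R.w_pos j
    have : 0 ≤ R.w j * ((R.l q : ℝ) + 1) := by positivity
    nlinarith
  · rw [(R.blk_L2 c1 c2).2]; exact (R.al_pos _).le
  · rw [(R.blk_B hj hj2).2.1, (R.blk_B hj hj2).1]
    have := W_pos j
    have : 0 ≤ W j * R.M q ^ j := by positivity
    nlinarith

/-! ### the vectors `e i` -/

lemma e_zero : R.e 0 = f 0 := by
  rw [e]
  simp [al_zero]

lemma f_eq (i : ℕ) :
    f i = ((R.al i : ℝ) : ℂ) • R.e i - ((R.sg i : ℝ) : ℂ) • R.e (R.rf i) := by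
  have hal : ((R.al i : ℝ) : ℂ) ≠ 0 := by
    exact_mod_cast (R.al_pos i).ne'
  rcases Nat.eq_zero_or_pos i with h0 | h0
  · subst h0; rw [e_zero, al_zero, sg_zero]; simp
  · have h1 : R.e i = ((R.al i : ℝ) : ℂ)⁻¹ • (f i + ((R.sg i : ℝ) : ℂ) • R.e (R.rf i)) := by
      rw [e, dif_pos (R.rf_lt h0)]
    rw [h1, smul_smul, mul_inv_cancel₀ hal, one_smul, add_sub_cancel_right]

lemma e_eq {i : ℕ} (h0 : 0 < i) :
    R.e i = ((R.al i : ℝ) : ℂ)⁻¹ • (f i + ((R.sg i : ℝ) : ℂ) • R.e (R.rf i)) := by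
  rw [e, dif_pos (R.rf_lt h0)]

/-- the basic recursive estimate -/
lemma al_norm_e_le (i : ℕ) : R.al i * ‖R.e i‖ ≤ 1 + R.sg i * ‖R.e (R.rf i)‖ := by
  have h1 : ((R.al i : ℝ) : ℂ) • R.e i = f i + ((R.sg i : ℝ) : ℂ) • R.e (R.rf i) := by
    rw [R.f_eq i, sub_add_cancel]
  have h2 : ‖((R.al i : ℝ) : ℂ) • R.e i‖ = R.al i * ‖R.e i‖ := by
    rw [norm_smul, Complex.norm_real, Real.norm_of_nonneg (R.al_pos i).le]
  rw [← h2, h1]
  refine (norm_add_le _ _).trans ?_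
  rw [norm_f, norm_smul, Complex.norm_real, Real.norm_of_nonneg (R.sg_nonneg i)]

end Par

end Pool.Agent.W685.RT
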