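import Pool.Agent.W685.RT.Oper

/-!
Every nonzero vector is cyclic.
-/

set_option autoImplicit false

noncomputable section

namespace Pool.Agent.W685.RT

open Finset

/-- general tail estimate -/
lemma tail_aux {Y : Type*} [NormedAddCommGroup Y] [NormedSpace ℂ Y]
    (c : ℕ → ℂ) (hc : Summable fun i => ‖c i‖) (u : ℕ → Y) (m : ℕ)
    (hz : ∀ i, i ≤ m → u i = 0) (hb : ∀ i, ‖u i‖ ≤ 2) (z : Y)
    (h : HasSum (fun i => c i • u i) z) : ‖z‖ ≤ 2 * ∑' i, ‖c (i + (m + 1))‖ := by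
  have h1 : HasSum (fun i => c (i + (m + 1)) • u (i + (m + 1))) z := by
    have h2 := (hasSum_nat_add_iff' (m + 1)).2 h
    have h3 : ∑ i ∈ range (m + 1), c i • u i = 0 := by
      refine sum_eq_zero fun i hi => ?_
      rw [hz i (by have := mem_range.1 hi; omega), smul_zero]
    rw [h3, sub_zero] at h2
    exact h2
  have hl : Summable fun i => ‖c (i + (m + 1))‖ :=
    (summable_nat_add_iff (f := fun i => ‖c i‖) (m + 1)).2 hc
  have h4 : ∀ i, ‖c (i + (m + 1)) • u (i + (m + 1))‖ ≤ 2 * ‖c (i + (m + 1))‖ := by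
    intro i
    rw [norm_smul, mul_comm]
    exact mul_le_mul_of_nonneg_right (hb _) (norm_nonneg _)
  have h5 := h1.tsum_eq
  rw [← h5]
  refine (tsum_of_norm_bounded (hl.mul_left 2).hasSum h4).trans ?_
  rw [tsum_mul_left]

namespace Par

variable (R : Par)

/-- `ρ_q T ^ (m q) p(T)` -/
def Q (q : ℕ) (p : ℕ → ℂ) : L1 →L[ℂ] L1 :=
  ((R.rho q : ℝ) : ℂ) • ∑ s ∈ range (R.m q + 1), p s • R.T ^ (R.m q + s)

/-- the head operator -/
def Pq (q : ℕ) : L1 →L[ℂ] L1 :=
  ∑ k ∈ range (R.m q + 1), (R.cc q k).smulRight (R.e k)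

lemma Pq_apply (q : ℕ) (x : L1) :
    R.Pq q x = ∑ k ∈ range (R.m q + 1), R.cc q k x • R.e k := by
  unfold Pq
  rw [_root_.sum_apply]
  rfl

lemma Pq_f (q i : ℕ) : R.Pq q (f i) = R.Pf q i := by
  rw [Pq_apply, R.Pf_eq]
  refine sum_congr rfl fun k hk => ?_
  rw [R.cc_f (by have := mem_range.1 hk; omega)]

lemma Q_apply (q : ℕ) (p : ℕ → ℂ) (x : L1) :
    R.Q q p x = ((R.rho q : ℝ) : ℂ) • ∑ s ∈ range (R.m q + 1), p s • (R.T ^ (R.m q + s)) x := by
  unfold Q
  rw [smul_apply, _root_.sum_apply]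
  rfl

/-- estimate on the unit vectors -/
lemma QP_f {q : ℕ} {p : ℕ → ℂ} (hp0 : ∀ s, s < R.h q → p s = 0)
    (hpP : ∑ s ∈ range (R.m q + 1), ‖p s‖ ≤ R.M q) {i : ℕ} (hi : R.m q < i) :
    ‖R.Q q p (f i - R.Pq q (f i))‖ ≤ 2 := by
  rw [Pq_f, Q_apply, norm_smul, Complex.norm_real,
    Real.norm_of_nonneg (by linarith [R.one_le_rho q])]
  have hM := R.one_le_M q
  have hr := R.one_le_rho q
  have h1 : ∀ s ∈ range (R.m q + 1), ‖p s • (R.T ^ (R.m q + s)) (f i - R.Pf q i)‖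
      ≤ ‖p s‖ * (2 / (R.rho q * R.M q)) := by
    intro s _
    rw [norm_smul]
    rcases lt_or_ge s (R.h q) with c | c
    · rw [hp0 s c]; simp
    · refine mul_le_mul_of_nonneg_left ?_ (norm_nonneg _)
      have := R.tail_bound hi (t := R.m q + s) (by omega)
      rw [le_div_iff₀ (by positivity), mul_comm]
      exact this
  calc R.rho q * ‖∑ s ∈ range (R.m q + 1), p s • (R.T ^ (R.m q + s)) (f i - R.Pf q i)‖
      ≤ R.rho q * ∑ s ∈ range (R.m q + 1), ‖p s‖ * (2 / (R.rho q * R.M q)) := by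
        gcongr
        exact (norm_sum_le _ _).trans (sum_le_sum h1)
    _ = R.rho q * ((∑ s ∈ range (R.m q + 1), ‖p s‖) * (2 / (R.rho q * R.M q))) := by
        rw [sum_mul]
    _ ≤ R.rho q * (R.M q * (2 / (R.rho q * R.M q))) := by gcongr
    _ = 2 := by field_simp

lemma QP_f_zero (q : ℕ) {i : ℕ} (hi : i ≤ R.m q) : f i - R.Pq q (f i) = 0 := by
  rw [Pq_f]; unfold Pf; rw [if_pos hi, sub_self]

lemma op_tail (S : L1 →L[ℂ] L1) (m : ℕ) (hz : ∀ i, i ≤ m → S (f i) = 0)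
    (hb : ∀ i, ‖S (f i)‖ ≤ 2) (x : L1) : ‖S x‖ ≤ 2 * ∑' i, ‖x (i + (m + 1))‖ :=
  tail_aux (fun i => x i) (l1_summable x) (fun i => S (f i)) m hz hb (S x) (op_apply S x)

/-- the tail part of the estimate -/
lemma QP_tail {q : ℕ} {p : ℕ → ℂ} (hp0 : ∀ s, s < R.h q → p s = 0)
    (hpP : ∑ s ∈ range (R.m q + 1), ‖p s‖ ≤ R.M q) (x : L1) :
    ‖R.Q q p (x - R.Pq q x)‖ ≤ 2 * ∑' i, ‖x (i + (R.m q + 1))‖ := by
  have hSf : ∀ y, ((R.Q q p).comp (ContinuousLinearMap.id ℂ L1 - R.Pq q)) y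
      = R.Q q p (y - R.Pq q y) := fun y => rfl
  rw [← hSf x]
  refine op_tail _ (R.m q) (fun i hi => ?_) (fun i => ?_) x
  · rw [hSf, R.QP_f_zero q hi, map_zero]
  · rw [hSf]
    rcases le_or_gt i (R.m q) with c | c
    · rw [R.QP_f_zero q c, map_zero, norm_zero]; norm_num
    · exact R.QP_f hp0 hpP c

/-- in the b-fan, `ρ T ^ (m q)` is close to the identity -/
lemma rho_e {q n : ℕ} (h1 : R.h q ≤ n) (h2 : n ≤ R.m q) :
    ‖((R.rho q : ℝ) : ℂ) • R.e (R.m q + n) - R.e n‖ ≤ 1 / R.M q := by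
  obtain ⟨hal, hsg, hrf⟩ := R.blk_B h1 h2
  have hM := R.one_le_M q
  have hW := one_le_W n
  have hWp := W_pos n
  have e1 := R.f_eq (R.m q + n)
  rw [hal, hsg, hrf] at e1
  have hc : (((W n * R.M q ^ n : ℝ)) : ℂ) ≠ 0 := by
    have : W n * R.M q ^ n ≠ 0 := by positivity
    exact_mod_cast this
  have e2 : ((R.rho q : ℝ) : ℂ) • R.e (R.m q + n) - R.e n
      = (((W n * R.M q ^ n : ℝ)) : ℂ)⁻¹ • f (R.m q + n) := by
    rw [e1, smul_sub, smul_smul, smul_smul, inv_mul_cancel₀ hc, one_smul,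
      Complex.ofReal_mul (W n * R.M q ^ n), ← mul_assoc, inv_mul_cancel₀ hc, one_mul]
  rw [e2, norm_smul, norm_f, mul_one, norm_inv, Complex.norm_real,
    Real.norm_of_nonneg (by positivity), one_div]
  have hn : 0 < n := by have := R.h_def q; omega
  have h3 := pow_aux hn hM
  have h4 : R.M q ≤ W n * R.M q ^ n := by nlinarith
  exact inv_anti₀ (by linarith) h4

lemma norm_rho_e_le {q n : ℕ} (h1 : R.h q ≤ n) (h2 : n ≤ R.m q) :
    ‖((R.rho q : ℝ) : ℂ) • R.e (R.m q + n)‖ ≤ 2 := by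
  have h3 := R.rho_e h1 h2
  have h4 := R.norm_e_le_one n
  have h5 : 1 / R.M q ≤ 1 := by
    have := R.one_le_M q
    rw [div_le_one (by linarith)]; exact this
  have h6 : ((R.rho q : ℝ) : ℂ) • R.e (R.m q + n)
      = (((R.rho q : ℝ) : ℂ) • R.e (R.m q + n) - R.e n) + R.e n := by rw [sub_add_cancel]
  rw [h6]
  refine (norm_add_le _ _).trans ?_
  linarith

lemma lam_e (q : ℕ) :
    ‖((R.lam q : ℝ) : ℂ) • R.e (R.a q) - R.e 0‖ ≤ 1 / (R.l q + 1) := by
  obtain ⟨hal, hsg, hrf⟩ := R.blk_A (q := q) (j := 0) (Nat.zero_le _)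
  have e1 := R.f_eq (R.a q + 0)
  rw [hal, hsg, hrf, w_zero, one_mul, add_zero] at e1
  have hc : ((((R.l q : ℝ) + 1 : ℝ)) : ℂ) ≠ 0 := by
    have : (R.l q : ℝ) + 1 ≠ 0 := by positivity
    exact_mod_cast this
  have e2 : ((R.lam q : ℝ) : ℂ) • R.e (R.a q) - R.e 0
      = ((((R.l q : ℝ) + 1 : ℝ)) : ℂ)⁻¹ • f (R.a q) := by
    rw [e1, smul_sub, smul_smul, smul_smul, inv_mul_cancel₀ hc, one_smul, Complex.ofReal_mul,
      ← mul_assoc, inv_mul_cancel₀ hc, one_mul]
  rw [e2, norm_smul, norm_f, mul_one, norm_inv, Complex.norm_real,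
    Real.norm_of_nonneg (by positivity), one_div]

lemma double_sum_split (m : ℕ) (F : ℕ → ℕ → L1) :
    ∑ s ∈ range (m + 1), ∑ k ∈ range (m + 1), F s k
      = ∑ n ∈ range (m + 1), ∑ s ∈ range (n + 1), F s (n - s)
        + ∑ s ∈ range (m + 1), ∑ k ∈ Ico (m + 1 - s) (m + 1), F s k := by
  rw [Finset.sum_range_diag_flip (m + 1) F, ← sum_add_distrib]
  refine sum_congr rfl fun s _ => ?_
  rw [Finset.range_eq_Ico, Finset.range_eq_Ico,
    Finset.sum_Ico_consecutive _ (Nat.zero_le _) (Nat.sub_le _ _)]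

/-- the head part of the estimate -/
lemma Q_head {q : ℕ} {p y : ℕ → ℂ} (hp0 : ∀ s, s < R.h q → p s = 0)
    (hpP : ∑ s ∈ range (R.m q + 1), ‖p s‖ ≤ R.M q)
    (hy : ∑ k ∈ range (R.m q + 1), ‖y k‖ ≤ 2 * Bd R.v q (R.lam q))
    (hpy : ∑ n ∈ range (R.m q + 1), ‖∑ s ∈ range (n + 1), p s * y (n - s)
        - (if n = R.a q then ((R.lam q : ℝ) : ℂ) else 0)‖ ≤ 1 / (q + 1)) :
    ‖R.Q q p (∑ k ∈ range (R.m q + 1), y k • R.e k)
      - ((R.lam q : ℝ) : ℂ) • R.e (R.a q)‖ ≤ 4 / (q + 1) := by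
  have hM := R.one_le_M q
  have hr := R.one_le_rho q
  have hlam := R.one_le_lam q
  have hq0 : (0 : ℝ) ≤ q := Nat.cast_nonneg q
  have hvs := R.v_succ' q
  have hham : R.a q ≤ R.m q := R.a_le_m q
  have hha : R.h q ≤ R.a q := R.h_le_a q
  set E : ℕ → L1 := fun n => ((R.rho q : ℝ) : ℂ) • R.e (R.m q + n) with hE
  -- rewrite Q applied to the head
  have e1 : R.Q q p (∑ k ∈ range (R.m q + 1), y k • R.e k)
      = ∑ s ∈ range (R.m q + 1), ∑ k ∈ range (R.m q + 1), (p s * y k) • E (s + k) := by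
    rw [Q_apply, smul_sum]
    refine sum_congr rfl fun s _ => ?_
    rw [map_sum, smul_sum, smul_sum]
    refine sum_congr rfl fun k _ => ?_
    rw [map_smul, T_pow_e, smul_smul, smul_smul, hE]
    simp only
    rw [smul_smul]
    have : k + (R.m q + s) = R.m q + (s + k) := by omega
    rw [this]
    congr 1
    ring
  rw [e1, double_sum_split (R.m q) (fun s k => (p s * y k) • E (s + k))]
  -- the diagonal part
  have e2 : ∑ n ∈ range (R.m q + 1), ∑ s ∈ range (n + 1), (p s * y (n - s)) • E (s + (n - s))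
      = ∑ n ∈ range (R.m q + 1), (∑ s ∈ range (n + 1), p s * y (n - s)) • E n := by
    refine sum_congr rfl fun n _ => ?_
    rw [sum_smul]
    refine sum_congr rfl fun s hs => ?_
    have : s + (n - s) = n := by have := mem_range.1 hs; omega
    rw [this]
  rw [e2]
  set c : ℕ → ℂ := fun n => ∑ s ∈ range (n + 1), p s * y (n - s) with hc
  set δ : ℕ → ℂ := fun n => if n = R.a q then ((R.lam q : ℝ) : ℂ) else 0 with hδ
  have hc0 : ∀ n, n < R.h q → c n = 0 := by
    intro n hn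
    refine sum_eq_zero fun s hs => ?_
    rw [hp0 s (by have := mem_range.1 hs; omega), zero_mul]
  have hδ0 : ∀ n, n < R.h q → δ n = 0 := by
    intro n hn
    simp only [hδ]
    rw [if_neg (by omega)]
  have e3 : ∑ n ∈ range (R.m q + 1), c n • E n - ((R.lam q : ℝ) : ℂ) • R.e (R.a q)
      = ∑ n ∈ range (R.m q + 1), (c n - δ n) • E n
        + ((R.lam q : ℝ) : ℂ) • (E (R.a q) - R.e (R.a q)) := by
    have : ∑ n ∈ range (R.m q + 1), δ n • E n = ((R.lam q : ℝ) : ℂ) • E (R.a q) := by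
      simp only [hδ, ite_smul, zero_smul]
      rw [sum_ite_eq', if_pos (mem_range.2 (by omega))]
    rw [smul_sub, ← this]
    simp only [sub_smul, sum_sub_distrib]
    abel
  have h1 : ‖∑ n ∈ range (R.m q + 1), (c n - δ n) • E n‖ ≤ 2 / (q + 1) := by
    calc ‖∑ n ∈ range (R.m q + 1), (c n - δ n) • E n‖
        ≤ ∑ n ∈ range (R.m q + 1), ‖c n - δ n‖ * 2 := by
          refine (norm_sum_le _ _).trans (sum_le_sum fun n hn => ?_)
          rw [norm_smul]
          rcases lt_or_ge n (R.h q) with c1 | c1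
          · rw [hc0 n c1, hδ0 n c1]; simp
          · exact mul_le_mul_of_nonneg_left
              (R.norm_rho_e_le c1 (by have := mem_range.1 hn; omega)) (norm_nonneg _)
      _ = (∑ n ∈ range (R.m q + 1), ‖c n - δ n‖) * 2 := by rw [sum_mul]
      _ ≤ (1 / (q + 1)) * 2 := by
          have := hpy
          gcongr
      _ = _ := by ring
  have h2 : ‖((R.lam q : ℝ) : ℂ) • (E (R.a q) - R.e (R.a q))‖ ≤ 1 / (q + 1) := by
    rw [norm_smul, Complex.norm_real, Real.norm_of_nonneg (by linarith)]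
    have h3 := R.rho_e (q := q) (n := R.a q) hha hham
    have h4 : R.lam q * (q + 1) ≤ R.M q := by
      refine le_trans ?_ (R.lamBd_le_M q)
      have h5 := Bd_ge (v := R.v) (q := q) hlam
      have h6 : ((q : ℝ) + 1) ≤ (q + 2) * W (R.v (q + 1)) * R.lam q := by
        have h7 := one_le_W (R.v (q + 1))
        have h8 : (1 : ℝ) ≤ W (R.v (q + 1)) * R.lam q := one_le_mul_of_one_le_of_one_le h7 hlam
        nlinarith
      have h9 := h6.trans h5
      gcongr
    calc R.lam q * ‖E (R.a q) - R.e (R.a q)‖ ≤ R.lam q * (1 / R.M q) := by gcongr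
      _ ≤ 1 / (q + 1) := by
        rw [mul_one_div, div_le_div_iff₀ (by linarith) (by linarith)]
        linarith
  -- the part beyond
  have h3 : ‖∑ s ∈ range (R.m q + 1), ∑ k ∈ Ico (R.m q + 1 - s) (R.m q + 1),
      (p s * y k) • E (s + k)‖ ≤ 1 / (q + 1) := by
    have hD := R.rhoBd_le_D q
    have hDp : 0 < R.D (q + 1) := by linarith [R.one_le_D (q + 1)]
    have hEb : ∀ s k, s < R.m q + 1 → k ∈ Ico (R.m q + 1 - s) (R.m q + 1) →
        ‖E (s + k)‖ ≤ R.rho q / R.D (q + 1) := by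
      intro s k hs hk
      rw [mem_Ico] at hk
      rw [hE]
      simp only
      rw [norm_smul, Complex.norm_real, Real.norm_of_nonneg (by linarith), div_eq_mul_one_div]
      have h5 := R.domD (q := q + 1) (k := R.m q + (s + k)) (by omega)
      have h6 := one_le_W (R.m q + (s + k))
      have h7 := norm_nonneg (R.e (R.m q + (s + k)))
      have h8 : ‖R.e (R.m q + (s + k))‖ ≤ 1 / R.D (q + 1) := by
        rw [le_div_iff₀ hDp]
        refine le_trans ?_ h5
        have : ‖R.e (R.m q + (s + k))‖ ≤ ‖R.e (R.m q + (s + k))‖ * W (R.m q + (s + k)) := by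
          nlinarith
        gcongr
      gcongr
    have hb1 : ‖∑ s ∈ range (R.m q + 1), ∑ k ∈ Ico (R.m q + 1 - s) (R.m q + 1),
        (p s * y k) • E (s + k)‖
        ≤ ∑ s ∈ range (R.m q + 1), ∑ k ∈ range (R.m q + 1),
          ‖p s‖ * ‖y k‖ * (R.rho q / R.D (q + 1)) := by
      refine (norm_sum_le _ _).trans (sum_le_sum fun s hs => ?_)
      refine (norm_sum_le _ _).trans ?_
      refine (sum_le_sum (g := fun k => ‖p s‖ * ‖y k‖ * (R.rho q / R.D (q + 1)))
        fun k hk => ?_).trans ?_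
      · rw [norm_smul, norm_mul]
        exact mul_le_mul_of_nonneg_left (hEb s k (mem_range.1 hs) hk) (by positivity)
      · refine sum_le_sum_of_subset_of_nonneg ?_ fun _ _ _ => by positivity
        intro k hk
        rw [mem_Ico] at hk
        exact mem_range.2 hk.2
    refine hb1.trans ?_
    have hb2 : ∑ s ∈ range (R.m q + 1), ∑ k ∈ range (R.m q + 1),
          ‖p s‖ * ‖y k‖ * (R.rho q / R.D (q + 1))
        = (∑ s ∈ range (R.m q + 1), ‖p s‖) * (∑ k ∈ range (R.m q + 1), ‖y k‖)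
          * (R.rho q / R.D (q + 1)) := by
      rw [sum_mul_sum, sum_mul]
      refine sum_congr rfl fun s _ => ?_
      rw [sum_mul]
    rw [hb2]
    have hBl := Bd_pos (v := R.v) (q := q) hlam
    calc (∑ s ∈ range (R.m q + 1), ‖p s‖) * (∑ k ∈ range (R.m q + 1), ‖y k‖)
          * (R.rho q / R.D (q + 1))
        ≤ R.M q * (2 * Bd R.v q (R.lam q)) * (R.rho q / R.D (q + 1)) := by
          have : 0 ≤ ∑ k ∈ range (R.m q + 1), ‖y k‖ := sum_nonneg fun _ _ => norm_nonneg _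
          gcongr
      _ ≤ R.rho q * (2 * Bd R.v q (R.rho q)) * (R.rho q / R.D (q + 1)) := by
          have h5 := R.M_le_rho q
          have h6 := Bd_mono (v := R.v) (q := q) hlam ((R.lam_le_M q).trans h5)
          gcongr
      _ = (2 * (R.rho q ^ 2 * Bd R.v q (R.rho q))) / R.D (q + 1) := by ring
      _ ≤ 1 / (q + 1) := by
          rw [div_le_div_iff₀ hDp (by linarith)]
          linarith
  have e4 : ∑ n ∈ range (R.m q + 1), c n • E n
        + ∑ s ∈ range (R.m q + 1), ∑ k ∈ Ico (R.m q + 1 - s) (R.m q + 1), (p s * y k) • E (s + k)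
        - ((R.lam q : ℝ) : ℂ) • R.e (R.a q)
      = (∑ n ∈ range (R.m q + 1), c n • E n - ((R.lam q : ℝ) : ℂ) • R.e (R.a q))
        + ∑ s ∈ range (R.m q + 1), ∑ k ∈ Ico (R.m q + 1 - s) (R.m q + 1),
          (p s * y k) • E (s + k) := by abel
  rw [e4, e3]
  refine (norm_add_le _ _).trans ?_
  refine (add_le_add (norm_add_le _ _) le_rfl).trans ?_
  refine (add_le_add (add_le_add h1 h2) h3).trans ?_
  apply le_of_eq
  ring

end Par

end Pool.Agent.W685.RT
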