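import Pool.Agent.W685.RT.L1

/-!
A Read type operator on `ℓ¹`: parameters and definitions.

Stage `q` occupies the indices `v q < i ≤ v (q+1)` and consists of four blocks
* `v q < i < aa q`                  : layoff, `f i = W i * D q ^ i * e i`;
* `aa q ≤ i ≤ mm q`                 : a-fan, `f i = w j * (l q + 1) * (lam q * e i - e j)`, `j = i - aa q`;
* `mm q < i < mm q + hh q`          : layoff, `f i = W i * M q ^ i * e i`;
* `mm q + hh q ≤ i ≤ 2 * mm q`      : b-fan, `f i = W j * M q ^ j * (rho q * e i - e j)`, `j = i - mm q`.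
-/

set_option autoImplicit false

noncomputable section

namespace Pool.Agent.W685.RT

open Finset

/-- the weight `2 ^ (m ^ 2)` -/
def W (m : ℕ) : ℝ := 2 ^ (m ^ 2)

/-- start of the a-fan of stage `q` -/
def aa (v : ℕ → ℕ) (q : ℕ) : ℕ := 3 * v q + 1

/-- end of the a-fan of stage `q` -/
def mm (v l : ℕ → ℕ) (q : ℕ) : ℕ := 3 * v q + 1 + v (l q)

/-- start of the b-fan of stage `q`, minus `mm q` -/
def hh (v : ℕ → ℕ) (q : ℕ) : ℕ := 2 * v q + 1

/-- bound for all coefficients of stage at most `q`, when the last parameter chosen is `x` -/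
def Bd (v : ℕ → ℕ) (q : ℕ) (x : ℝ) : ℝ := (q + 2) * W (v (q + 1)) * x ^ (2 * v (q + 1) + 1)

/-- the next parameter is at least this -/
def bg (v : ℕ → ℕ) (q : ℕ) (x : ℝ) : ℝ := 2 * (q + 1) * W (v (q + 1)) * x ^ 2 * Bd v q x

/-- The parameters. -/
structure Par where
  /-- stage of the width of the a-fan of stage `q` -/
  l : ℕ → ℕ
  /-- last index before stage `q` -/
  v : ℕ → ℕ
  /-- parameter of the first layoff -/
  D : ℕ → ℝ
  /-- parameter of the a-fan -/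
  lam : ℕ → ℝ
  /-- parameter of the second layoff and the b-fan -/
  M : ℕ → ℝ
  /-- parameter of the b-fan -/
  rho : ℕ → ℝ
  /-- bound for the polynomials of stage `q` -/
  P : ℕ → ℝ
  l_le : ∀ q, l q ≤ q
  v_zero : v 0 = 0
  v_succ : ∀ q, v (q + 1) = 2 * mm v l q
  G1 : ∀ L, ∃ L', ∀ q, L' ≤ l q → (∀ q', l q' ≠ q + 1) ∧ L ≤ l (q + 1)
  G2 : ∀ L N, ∃ q, N ≤ q ∧ L ≤ l q
  D_ge : ∀ q, 2 ≤ D q
  lam_ge : ∀ q, bg v q (D q) ≤ lam q
  M_ge : ∀ q, bg v q (lam q) ≤ M q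
  rho_ge : ∀ q, bg v q (M q) ≤ rho q
  D_succ_ge : ∀ q, bg v q (rho q) ≤ D (q + 1)
  P_nonneg : ∀ q, 0 ≤ P q
  P_le : ∀ q, P q ≤ M q
  P_spec : ∀ (q : ℕ) (y : ℕ → ℂ),
    ∑ k ∈ range (mm v l q + 1), ‖y k‖ ≤ 2 * Bd v q (lam q) →
    1 / (2 ^ q * (v q + 1) * Bd v q (lam q)) ≤ ∑ k ∈ range (v q + 1), ‖y k‖ →
    ∃ p : ℕ → ℂ, (∀ s, s < hh v q → p s = 0) ∧
      ∑ s ∈ range (mm v l q + 1), ‖p s‖ ≤ P q ∧
      ∑ n ∈ range (mm v l q + 1), ‖∑ s ∈ range (n + 1), p s * y (n - s)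
        - (if n = aa v q then ((lam q : ℝ) : ℂ) else 0)‖ ≤ 1 / (q + 1)

namespace Par

variable (R : Par)

/-- the stage of the index `i` -/
def g (i : ℕ) : ℕ := sInf {q | i ≤ R.v (q + 1)}

/-- weights of the a-fans -/
def w (j : ℕ) : ℝ := W j * (R.rho (R.g j) ^ 2) ^ j

/-- coefficient of `e i` in `f i` -/
def al (i : ℕ) : ℝ :=
  if i = 0 then 1 else
  if i < aa R.v (R.g i) then W i * R.D (R.g i) ^ i else
  if i ≤ mm R.v R.l (R.g i) then
    R.w (i - aa R.v (R.g i)) * (R.l (R.g i) + 1) * R.lam (R.g i) else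
  if i < mm R.v R.l (R.g i) + hh R.v (R.g i) then W i * R.M (R.g i) ^ i else
  W (i - mm R.v R.l (R.g i)) * R.M (R.g i) ^ (i - mm R.v R.l (R.g i)) * R.rho (R.g i)

/-- minus the coefficient of `e (rf i)` in `f i` -/
def sg (i : ℕ) : ℝ :=
  if i = 0 then 0 else
  if i < aa R.v (R.g i) then 0 else
  if i ≤ mm R.v R.l (R.g i) then R.w (i - aa R.v (R.g i)) * (R.l (R.g i) + 1) else
  if i < mm R.v R.l (R.g i) + hh R.v (R.g i) then 0 else
  W (i - mm R.v R.l (R.g i)) * R.M (R.g i) ^ (i - mm R.v R.l (R.g i))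

/-- the back reference -/
def rf (i : ℕ) : ℕ :=
  if i = 0 then 0 else
  if i < aa R.v (R.g i) then 0 else
  if i ≤ mm R.v R.l (R.g i) then i - aa R.v (R.g i) else
  if i < mm R.v R.l (R.g i) + hh R.v (R.g i) then 0 else
  i - mm R.v R.l (R.g i)

/-- the vectors `e i` -/
def e (i : ℕ) : L1 :=
  ((R.al i : ℝ) : ℂ)⁻¹ • (f i + if _h : R.rf i < i then ((R.sg i : ℝ) : ℂ) • e (R.rf i) else 0)
termination_by i

end Par

end Pool.Agent.W685.RT
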