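import Pool.Agent.W685.RT.Cyclic
import Pool.Agent.W730.RT.RT6

/-!
Every nonzero vector is cyclic for `T`.
-/

set_option autoImplicit false

noncomputable section

namespace Pool.Agent.W685.RT

open Finset Filter Topology

namespace Par

variable (R : Par)

/-- approximation of `e 0` -/
lemma approx_e0 (x : L1) (hx : ‖x‖ = 1) {ε : ℝ} (hε : 0 < ε) :
    ∃ q p, ‖R.Q q p x - R.e 0‖ < ε := by
  have hx0 : x ≠ 0 := by
    intro h; rw [h, norm_zero] at hx; norm_num at hx
  obtain ⟨L, hL⟩ := exists_nat_one_div_lt (show 0 < ε / 3 by linarith)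
  obtain ⟨N, hN⟩ := exists_nat_one_div_lt (show 0 < ε / 12 by linarith)
  have ht := tendsto_sum_nat_add (fun i => ‖x i‖)
  obtain ⟨N1, hN1⟩ := (ht.eventually (gt_mem_nhds (show 0 < ε / 6 by linarith))).exists_forall_of_atTop
  obtain ⟨q, hq, hLq, hη⟩ := R.head_large x hx0 L (max N N1)
  have hy : ∑ k ∈ range (mm R.v R.l q + 1), ‖R.cc q k x‖ ≤ 2 * Bd R.v q (R.lam q) := by
    have := R.cc_sum_le q x
    rw [hx, mul_one] at this
    exact this
  obtain ⟨p, hp0, hpP, hpy⟩ := R.P_spec q (fun k => R.cc q k x) hy hη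
  refine ⟨q, p, ?_⟩
  have hpM : ∑ s ∈ range (R.m q + 1), ‖p s‖ ≤ R.M q := hpP.trans (R.P_le q)
  have h1 := R.QP_tail hp0 hpM x
  have h2 := R.Q_head (y := fun k => R.cc q k x) hp0 hpM hy hpy
  rw [← R.Pq_apply] at h2
  have h3 := R.lam_e q
  have h4 : ∑' i, ‖x (i + (R.m q + 1))‖ < ε / 6 := by
    refine hN1 (R.m q + 1) ?_
    have := R.le_v q
    have := R.m_def q
    have := le_max_right N N1
    omega
  have h5 : (4 : ℝ) / (q + 1) < ε / 3 := by
    have h6 : (1 : ℝ) / (q + 1) ≤ 1 / (N + 1) := by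
      have h7 : (N : ℝ) ≤ q := by exact_mod_cast (le_max_left N N1).trans hq
      have h8 : (0 : ℝ) ≤ N := Nat.cast_nonneg N
      apply one_div_le_one_div_of_le <;> linarith
    have h9 : (4 : ℝ) / (q + 1) = 4 * (1 / (q + 1)) := by ring
    rw [h9]; linarith
  have h6 : (1 : ℝ) / (R.l q + 1) < ε / 3 := by
    have h7 : (1 : ℝ) / (R.l q + 1) ≤ 1 / (L + 1) := by
      have h7 : (L : ℝ) ≤ R.l q := by exact_mod_cast hLq
      have h8 : (0 : ℝ) ≤ L := Nat.cast_nonneg L
      apply one_div_le_one_div_of_le <;> linarith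
    linarith
  have e1 : R.Q q p x - R.e 0 = R.Q q p (x - R.Pq q x)
      + (R.Q q p (R.Pq q x) - ((R.lam q : ℝ) : ℂ) • R.e (R.a q))
      + (((R.lam q : ℝ) : ℂ) • R.e (R.a q) - R.e 0) := by
    rw [map_sub]; abel
  rw [e1]
  refine lt_of_le_of_lt (norm_add_le _ _) ?_
  refine lt_of_le_of_lt (add_le_add (norm_add_le _ _) le_rfl) ?_
  linarith

/-- the closed invariant subspace generated by `x` -/
def V (x : L1) : Submodule ℂ L1 :=
  (Submodule.span ℂ (Set.range fun n : ℕ => (R.T ^ n) x)).topologicalClosure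

lemma V_closed (x : L1) : IsClosed (R.V x : Set L1) := Submodule.isClosed_topologicalClosure _

lemma pow_mem_V (x : L1) (n : ℕ) : (R.T ^ n) x ∈ R.V x :=
  Submodule.le_topologicalClosure _ (Submodule.subset_span ⟨n, rfl⟩)

lemma T_mem_V {x y : L1} (hy : y ∈ R.V x) : R.T y ∈ R.V x := by
  have h1 : Set.MapsTo R.T (Submodule.span ℂ (Set.range fun n : ℕ => (R.T ^ n) x) : Set L1)
      (Submodule.span ℂ (Set.range fun n : ℕ => (R.T ^ n) x) : Set L1) := by
    intro z hz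
    have h2 : (Submodule.span ℂ (Set.range fun n : ℕ => (R.T ^ n) x)) ≤
        (Submodule.span ℂ (Set.range fun n : ℕ => (R.T ^ n) x)).comap (R.T : L1 →ₗ[ℂ] L1) := by
      rw [Submodule.span_le]
      rintro _ ⟨n, rfl⟩
      refine Submodule.subset_span ⟨n + 1, ?_⟩
      show (R.T ^ (n + 1)) x = R.T ((R.T ^ n) x)
      rw [pow_succ']
      rfl
    exact h2 hz
  have h3 : y ∈ closure (Submodule.span ℂ (Set.range fun n : ℕ => (R.T ^ n) x) : Set L1) := hy
  exact map_mem_closure R.T.continuous h3 h1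

lemma Q_mem_V (x : L1) (q : ℕ) (p : ℕ → ℂ) : R.Q q p x ∈ R.V x := by
  rw [Q_apply]
  refine Submodule.smul_mem _ _ (Submodule.sum_mem _ fun s _ => ?_)
  exact Submodule.smul_mem _ _ (R.pow_mem_V x _)

lemma e0_mem_V {x : L1} (hx : x ≠ 0) : R.e 0 ∈ R.V x := by
  have hn : ‖x‖ ≠ 0 := norm_ne_zero_iff.2 hx
  set x' : L1 := ((‖x‖ : ℝ) : ℂ)⁻¹ • x with hx'
  have hx1 : ‖x'‖ = 1 := by
    rw [hx', norm_smul, norm_inv, Complex.norm_real, norm_norm, inv_mul_cancel₀ hn]
  have h1 : R.e 0 ∈ closure (R.V x : Set L1) := by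
    rw [Metric.mem_closure_iff]
    intro ε hε
    obtain ⟨q, p, h⟩ := R.approx_e0 x' hx1 hε
    refine ⟨R.Q q p x', ?_, ?_⟩
    · rw [hx', map_smul]
      exact Submodule.smul_mem _ _ (R.Q_mem_V x q p)
    · rw [dist_comm, dist_eq_norm]; exact h
  rwa [(R.V_closed x).closure_eq] at h1

lemma e_mem_V {x : L1} (hx : x ≠ 0) (n : ℕ) : R.e n ∈ R.V x := by
  induction n with
  | zero => exact R.e0_mem_V hx
  | succ n ih => rw [← R.T_e]; exact R.T_mem_V ih

theorem V_eq_top {x : L1} (hx : x ≠ 0) (y : L1) : y ∈ R.V x := by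
  have hf : ∀ i, f i ∈ R.V x := by
    intro i
    rw [R.f_eq i]
    exact Submodule.sub_mem _ (Submodule.smul_mem _ _ (R.e_mem_V hx _))
      (Submodule.smul_mem _ _ (R.e_mem_V hx _))
  have h := hasSum_f y
  refine (R.V_closed x).mem_of_tendsto h (Eventually.of_forall fun s => ?_)
  exact Submodule.sum_mem _ fun i _ => Submodule.smul_mem _ _ (hf i)

/-- `T` has no nontrivial closed invariant subspace. -/
theorem dense_orbit (x : L1) (hx : x ≠ 0) :
    Dense ((Submodule.span ℂ (Set.range fun n : ℕ => (R.T ^ n) x) : Submodule ℂ L1) : Set L1) := by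
  intro y
  exact R.V_eq_top hx y

end Par

end Pool.Agent.W685.RT
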