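import Pool.Agent.W685.RT.Norms

/-!
The head operators `P_q` and their coefficient functionals.
-/

set_option autoImplicit false

noncomputable section

namespace Pool.Agent.W685.RT

open Finset

namespace Par

variable (R : Par)

/-- `i` lies in an a-fan of a later stage whose width is at most `v q` -/
def late (q i : ℕ) : Prop :=
  ∃ q' j, q < q' ∧ R.l q' ≤ q ∧ j ≤ R.v (R.l q') ∧ i = R.a q' + j

open Classical in
/-- coefficient of `e k` in `P_q (f i)` (for `k ≤ m q`) -/
def cf (q i k : ℕ) : ℝ :=
  if i ≤ R.m q then (if k = i then R.al i else 0) - (if k = R.rf i then R.sg i else 0)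
  else if R.late q i then - (if k = R.rf i then R.sg i else 0) else 0

open Classical in
/-- the head of `f i` -/
def Pf (q i : ℕ) : L1 :=
  if i ≤ R.m q then f i
  else if R.late q i then - (((R.sg i : ℝ) : ℂ) • R.e (R.rf i)) else 0

lemma late_lt {q i : ℕ} (h : R.late q i) : R.v (q + 1) < i := by
  obtain ⟨q', j, h1, _, _, h4⟩ := h
  have := R.v_mono (show q + 1 ≤ q' by omega)
  have := R.v_lt_a q'
  omega

lemma late_rf {q i : ℕ} (h : R.late q i) : R.rf i ≤ R.v q ∧ R.sg i ≤ Bd R.v q (R.D q) := by
  obtain ⟨q', j, h1, h2, h3, rfl⟩ := h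
  obtain ⟨_, h5, h6⟩ := R.blk_A h3
  have h7 := R.v_mono h2
  rw [h5, h6]
  refine ⟨by omega, ?_⟩
  refine le_trans ?_ (R.w_le_Bd_D (q := q) (j := j) (by omega))
  have h8 : (R.l q' : ℝ) ≤ q := by exact_mod_cast h2
  have := R.w_pos j
  gcongr

lemma abs_cf_sum_le (q i : ℕ) :
    ∑ k ∈ range (R.m q + 1), |R.cf q i k| ≤ 2 * Bd R.v q (R.lam q) := by
  have hB := one_le_Bd (v := R.v) (q := q) (R.one_le_lam q)
  unfold cf
  split_ifs with c1 c2
  · calc ∑ k ∈ range (R.m q + 1),
          |(if k = i then R.al i else 0) - (if k = R.rf i then R.sg i else 0)|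
        ≤ ∑ k ∈ range (R.m q + 1),
          ((if k = i then R.al i else 0) + (if k = R.rf i then R.sg i else 0)) := by
          refine sum_le_sum fun k _ => ?_
          have h1 := R.al_pos i
          have h2 := R.sg_nonneg i
          refine (abs_sub _ _).trans ?_
          refine add_le_add ?_ ?_
          · split_ifs
            · rw [abs_of_pos h1]
            · simp
          · split_ifs
            · rw [abs_of_nonneg h2]
            · simp
      _ ≤ R.al i + R.sg i := by
          rw [sum_add_distrib, sum_ite_eq', sum_ite_eq']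
          refine add_le_add ?_ ?_
          · split_ifs
            · exact le_rfl
            · exact (R.al_pos i).le
          · split_ifs
            · exact le_rfl
            · exact R.sg_nonneg i
      _ ≤ 2 * Bd R.v q (R.lam q) := by
          have := R.al_le_lam c1
          have := R.sg_le_al i
          linarith
  · have h3 := (R.late_rf c2).2
    have h4 : Bd R.v q (R.D q) ≤ Bd R.v q (R.lam q) := Bd_mono (R.one_le_D q) (R.D_le_lam q)
    calc ∑ k ∈ range (R.m q + 1), |-(if k = R.rf i then R.sg i else 0)|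
        = ∑ k ∈ range (R.m q + 1), (if k = R.rf i then R.sg i else 0) := by
          refine sum_congr rfl fun k _ => ?_
          rw [abs_neg]
          split_ifs
          · rw [abs_of_nonneg (R.sg_nonneg i)]
          · simp
      _ ≤ R.sg i := by
          rw [sum_ite_eq']
          split_ifs
          · exact le_rfl
          · exact R.sg_nonneg i
      _ ≤ _ := by linarith
  · simp only [abs_zero, sum_const_zero]
    linarith

lemma abs_cf_le {q k : ℕ} (hk : k ≤ R.m q) (i : ℕ) :
    |R.cf q i k| ≤ 2 * Bd R.v q (R.lam q) := by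
  refine le_trans ?_ (R.abs_cf_sum_le q i)
  exact single_le_sum (f := fun k => |R.cf q i k|) (fun _ _ => abs_nonneg _)
    (mem_range.2 (by omega))

/-- the coefficient of `e k` in `P_q x` (zero for `k > m q`) -/
def cc (q k : ℕ) : L1 →L[ℂ] ℂ :=
  if h : k ≤ R.m q then
    mkOp (fun i => ((R.cf q i k : ℝ) : ℂ)) (2 * Bd R.v q (R.lam q)) (fun i => by
      rw [Complex.norm_real]; exact R.abs_cf_le h i)
  else 0

lemma cc_f {q k : ℕ} (h : k ≤ R.m q) (i : ℕ) : R.cc q k (f i) = ((R.cf q i k : ℝ) : ℂ) := by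
  unfold cc
  rw [dif_pos h, mkOp_f]

lemma cc_apply {q k : ℕ} (h : k ≤ R.m q) (x : L1) :
    HasSum (fun i => x i * ((R.cf q i k : ℝ) : ℂ)) (R.cc q k x) := by
  have := op_apply (R.cc q k) x
  simpa [R.cc_f h] using this

lemma cc_sum_le (q : ℕ) (x : L1) :
    ∑ k ∈ range (R.m q + 1), ‖R.cc q k x‖ ≤ 2 * Bd R.v q (R.lam q) * ‖x‖ := by
  have hs : ∀ k ∈ range (R.m q + 1), Summable fun i => ‖x i‖ * |R.cf q i k| := by
    intro k hk
    have hk' : k ≤ R.m q := by have := mem_range.1 hk; omega
    refine Summable.of_nonneg_of_le (fun _ => by positivity) (fun i => ?_)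
      ((l1_summable x).mul_right (2 * Bd R.v q (R.lam q)))
    exact mul_le_mul_of_nonneg_left (R.abs_cf_le hk' i) (norm_nonneg _)
  have h1 : ∀ k ∈ range (R.m q + 1), ‖R.cc q k x‖ ≤ ∑' i, ‖x i‖ * |R.cf q i k| := by
    intro k hk
    have hk' : k ≤ R.m q := by have := mem_range.1 hk; omega
    rw [← (R.cc_apply hk' x).tsum_eq]
    have h2 : ∀ i, ‖x i * ((R.cf q i k : ℝ) : ℂ)‖ = ‖x i‖ * |R.cf q i k| := by
      intro i; rw [norm_mul, Complex.norm_real, Real.norm_eq_abs]
    refine (norm_tsum_le_tsum_norm ?_).trans ?_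
    · simp only [h2]; exact hs k hk
    · simp only [h2]; exact le_rfl
  calc ∑ k ∈ range (R.m q + 1), ‖R.cc q k x‖
      ≤ ∑ k ∈ range (R.m q + 1), ∑' i, ‖x i‖ * |R.cf q i k| := sum_le_sum h1
    _ = ∑' i, ∑ k ∈ range (R.m q + 1), ‖x i‖ * |R.cf q i k| := (Summable.tsum_finsetSum hs).symm
    _ ≤ ∑' i, ‖x i‖ * (2 * Bd R.v q (R.lam q)) := by
        refine Summable.tsum_le_tsum (fun i => ?_) (summable_sum hs)
          ((l1_summable x).mul_right _)
        rw [← mul_sum]
        exact mul_le_mul_of_nonneg_left (R.abs_cf_sum_le q i) (norm_nonneg _)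
    _ = _ := by rw [tsum_mul_right, l1_norm, mul_comm]

/-- `P_q (f i)` in terms of the coefficients -/
lemma Pf_eq (q i : ℕ) :
    R.Pf q i = ∑ k ∈ range (R.m q + 1), ((R.cf q i k : ℝ) : ℂ) • R.e k := by
  unfold Pf cf
  split_ifs with c1 c2
  · have h1 : R.rf i ≤ R.m q := by
      rcases Nat.eq_zero_or_pos i with h0 | h0
      · subst h0; simp [rf]
      · have := R.rf_lt h0; omega
    have h2 : ∀ k, (((((if k = i then R.al i else 0) - (if k = R.rf i then R.sg i else 0)) : ℝ)) : ℂ)
        • R.e k = (if k = i then ((R.al i : ℝ) : ℂ) • R.e k else 0)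
          - (if k = R.rf i then ((R.sg i : ℝ) : ℂ) • R.e k else 0) := by
      intro k
      push_cast
      rw [sub_smul]
      split_ifs <;> simp
    rw [sum_congr rfl fun k _ => h2 k, sum_sub_distrib, sum_ite_eq', sum_ite_eq',
      if_pos (mem_range.2 (by omega)), if_pos (mem_range.2 (by omega))]
    exact R.f_eq i
  · have h1 : R.rf i ≤ R.m q := by
      have := (R.late_rf c2).1
      have := R.m_def q
      omega
    have h2 : ∀ k, ((-(if k = R.rf i then R.sg i else 0) : ℝ) : ℂ)
        • R.e k = - (if k = R.rf i then ((R.sg i : ℝ) : ℂ) • R.e k else 0) := by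
      intro k
      push_cast
      rw [neg_smul]
      split_ifs <;> simp
    rw [sum_congr rfl fun k _ => h2 k, sum_neg_distrib, sum_ite_eq',
      if_pos (mem_range.2 (by omega))]
  · simp

end Par

end Pool.Agent.W685.RT
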