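import Mathlib

/-!
Operators on `ℓ¹` from the images of the unit vectors.
-/

set_option autoImplicit false

noncomputable section

namespace Pool.Agent.W685.RT

open Finset

/-- the complex Banach space `ℓ¹` -/
abbrev L1 := lp (fun _ : ℕ => ℂ) 1

/-- unit vectors of `ℓ¹` -/
def f (i : ℕ) : L1 := lp.single 1 i (1 : ℂ)

lemma norm_f (i : ℕ) : ‖f i‖ = 1 := by
  have := lp.norm_single (E := fun _ : ℕ => ℂ) (p := 1) (by norm_num) i (1 : ℂ)
  simp only [norm_one] at this
  exact this

lemma f_apply (i k : ℕ) : (f i : ℕ → ℂ) k = if k = i then 1 else 0 := by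
  unfold f
  rw [lp.single_apply]
  by_cases h : k = i
  · subst h; simp
  · simp [h]

lemma l1_summable (x : L1) : Summable fun i => ‖x i‖ := by
  have h := lp.memℓp x
  have := (memℓp_gen_iff (p := 1) (by norm_num)).1 h
  simpa using this

lemma l1_norm (x : L1) : ‖x‖ = ∑' i, ‖x i‖ := by
  have := lp.norm_eq_tsum_rpow (E := fun _ : ℕ => ℂ) (p := 1) (by norm_num) x
  simpa using this

section op
variable {Y : Type*} [NormedAddCommGroup Y] [NormedSpace ℂ Y] [CompleteSpace Y]

omit [CompleteSpace Y] in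
lemma op_summable (u : ℕ → Y) (C : ℝ) (hu : ∀ i, ‖u i‖ ≤ C) (x : L1) :
    Summable fun i => ‖x i • u i‖ := by
  refine Summable.of_nonneg_of_le (fun _ => norm_nonneg _) (fun i => ?_)
    ((l1_summable x).mul_right C)
  rw [norm_smul]
  exact mul_le_mul_of_nonneg_left (hu i) (norm_nonneg _)

/-- The operator `ℓ¹ → Y` with prescribed images of the unit vectors. -/
def mkOp (u : ℕ → Y) (C : ℝ) (hu : ∀ i, ‖u i‖ ≤ C) : L1 →L[ℂ] Y :=
  LinearMap.mkContinuous
    { toFun := fun x => ∑' i, x i • u i
      map_add' := by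
        intro x y
        rw [← Summable.tsum_add (op_summable u C hu x).of_norm (op_summable u C hu y).of_norm]
        refine tsum_congr fun i => ?_
        rw [lp.coeFn_add, Pi.add_apply, add_smul]
      map_smul' := by
        intro c x
        rw [RingHom.id_apply, ← (op_summable u C hu x).of_norm.tsum_const_smul]
        refine tsum_congr fun i => ?_
        rw [lp.coeFn_smul, Pi.smul_apply, smul_smul, smul_eq_mul] }
    C (by
      intro x
      show ‖∑' i, x i • u i‖ ≤ _
      refine (norm_tsum_le_tsum_norm (op_summable u C hu x)).trans ?_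
      rw [l1_norm, ← tsum_mul_left]
      refine Summable.tsum_le_tsum (fun i => ?_) (op_summable u C hu x)
        ((l1_summable x).mul_left C)
      rw [norm_smul, mul_comm]
      exact mul_le_mul_of_nonneg_right (hu i) (norm_nonneg _))

lemma mkOp_apply (u : ℕ → Y) (C : ℝ) (hu : ∀ i, ‖u i‖ ≤ C) (x : L1) :
    mkOp u C hu x = ∑' i, x i • u i := rfl

lemma mkOp_f (u : ℕ → Y) (C : ℝ) (hu : ∀ i, ‖u i‖ ≤ C) (i : ℕ) :
    mkOp u C hu (f i) = u i := by
  rw [mkOp_apply, tsum_eq_single i]
  · rw [f_apply, if_pos rfl, one_smul]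
  · intro k hk
    rw [f_apply, if_neg hk, zero_smul]

/-- every vector is the sum of its coordinates -/
lemma hasSum_f (x : L1) : HasSum (fun i => x i • f i) x := by
  have h := lp.hasSum_single (E := fun _ : ℕ => ℂ) (p := 1) (by norm_num) x
  convert h using 2 with i
  ext k
  rw [lp.coeFn_smul, Pi.smul_apply, f_apply, lp.single_apply]
  by_cases hk : k = i
  · subst hk; simp
  · simp [hk]

omit [CompleteSpace Y] in
/-- a bounded operator on `ℓ¹` acts coordinatewise -/
lemma op_apply (S : L1 →L[ℂ] Y) (x : L1) : HasSum (fun i => x i • S (f i)) (S x) := by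
  have h := (hasSum_f x).mapL S
  simpa using h

omit [CompleteSpace Y] in
lemma op_norm_le (S : L1 →L[ℂ] Y) (C : ℝ) (hS : ∀ i, ‖S (f i)‖ ≤ C) (x : L1) :
    ‖S x‖ ≤ C * ‖x‖ := by
  have h := op_apply S x
  have hs := op_summable (fun i => S (f i)) C hS x
  rw [← h.tsum_eq]
  refine (norm_tsum_le_tsum_norm hs).trans ?_
  rw [l1_norm, ← tsum_mul_left]
  refine Summable.tsum_le_tsum (fun i => ?_) hs ((l1_summable x).mul_left C)
  rw [norm_smul, mul_comm]
  exact mul_le_mul_of_nonneg_right (hS i) (norm_nonneg _)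

end op

end Pool.Agent.W685.RT
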