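import Pool.Agent.W685.RT.Blocks

/-!
Norms of the vectors `e i`.
-/

set_option autoImplicit false

noncomputable section

namespace Pool.Agent.W685.RT

open Finset

namespace Par

variable (R : Par)

lemma nb_layoff {k : ℕ} {x : ℝ} (hal : R.al k = W k * x ^ k) (hsg : R.sg k = 0) :
    ‖R.e k‖ * (W k * x ^ k) ≤ 1 := by
  have h := R.al_norm_e_le k
  rw [hsg, hal] at h
  linarith [mul_comm ‖R.e k‖ (W k * x ^ k)]

lemma nb_L1' {q k : ℕ} (h1 : R.v q < k) (h2 : k < R.a q) : ‖R.e k‖ * (W k * R.D q ^ k) ≤ 1 :=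
  R.nb_layoff (R.blk_L1 h1 h2).1 (R.blk_L1 h1 h2).2

lemma nb_L2' {q k : ℕ} (h1 : R.m q < k) (h2 : k < R.m q + R.h q) :
    ‖R.e k‖ * (W k * R.M q ^ k) ≤ 1 :=
  R.nb_layoff (R.blk_L2 h1 h2).1 (R.blk_L2 h1 h2).2

lemma pow_aux {k : ℕ} (hk : 0 < k) {x : ℝ} (hx : 1 ≤ x) : x ≤ x ^ k := by
  calc x = x ^ 1 := (pow_one x).symm
    _ ≤ _ := pow_le_pow_right₀ hx hk

lemma nb_L1 {q k : ℕ} (h1 : R.v q < k) (h2 : k < R.a q) : ‖R.e k‖ * W k * R.D q ≤ 1 := by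
  refine le_trans ?_ (R.nb_L1' h1 h2)
  have h3 := pow_aux (k := k) (by omega) (R.one_le_D q)
  have h4 := W_pos k
  rw [mul_assoc]
  gcongr

lemma nb_L2 {q k : ℕ} (h1 : R.m q < k) (h2 : k < R.m q + R.h q) :
    ‖R.e k‖ * W k * R.M q ≤ 1 := by
  refine le_trans ?_ (R.nb_L2' h1 h2)
  have h3 := pow_aux (k := k) (by omega) (R.one_le_M q)
  have h4 := W_pos k
  rw [mul_assoc]
  gcongr

/-- fans -/
lemma nb_fan {k V : ℕ} {s x t : ℝ} (hs : 1 ≤ s) (hal : R.al k = s * x) (hsg : R.sg k = s)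
    (hk : k ≤ V) (ht : 0 ≤ t) (hx : 2 * W V * t ≤ x) (he : ‖R.e (R.rf k)‖ ≤ 1) :
    ‖R.e k‖ * W k * t ≤ 1 := by
  have h := R.al_norm_e_le k
  rw [hsg, hal] at h
  have h1 : s * (x * ‖R.e k‖) ≤ s * 2 := by nlinarith
  have h2 : x * ‖R.e k‖ ≤ 2 := le_of_mul_le_mul_left h1 (by linarith)
  have h3 := W_mono hk
  have h4 := norm_nonneg (R.e k)
  have h5 : ‖R.e k‖ * W k * t ≤ ‖R.e k‖ * W V * t := by gcongr
  have h6 : ‖R.e k‖ * (2 * W V * t) ≤ ‖R.e k‖ * x := by gcongr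
  nlinarith

lemma one_le_wl (q j : ℕ) : 1 ≤ R.w j * ((R.l q : ℝ) + 1) := by
  have h5 : (1 : ℝ) ≤ (R.l q : ℝ) + 1 := by
    have : (0 : ℝ) ≤ R.l q := Nat.cast_nonneg _
    linarith
  exact one_le_mul_of_one_le_of_one_le (R.one_le_w _) h5

lemma TA_pos (q : ℕ) : 0 < R.TA q := by
  have := R.D_le_TA q; have := R.one_le_D q; linarith

lemma TR_pos (q : ℕ) : 0 < R.TR q := by
  have := R.M_le_TR q; have := R.one_le_M q; linarith

lemma nb_A {q j : ℕ} (hj : j ≤ R.v (R.l q)) (he : ‖R.e j‖ ≤ 1) :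
    ‖R.e (R.a q + j)‖ * W (R.a q + j) * R.TA q ≤ 1 := by
  obtain ⟨h1, h2, h3⟩ := R.blk_A hj
  refine R.nb_fan (V := R.v (q + 1)) (R.one_le_wl q j) h1 h2 ?_ (R.TA_pos q).le (R.TA_le_lam q)
    (by rw [h3]; exact he)
  have := R.v_succ' q; have := R.m_def q; have := R.a_def q
  omega

lemma nb_B {q j : ℕ} (hj : R.h q ≤ j) (hj2 : j ≤ R.m q) (he : ‖R.e j‖ ≤ 1) :
    ‖R.e (R.m q + j)‖ * W (R.m q + j) * R.TR q ≤ 1 := by
  obtain ⟨h1, h2, h3⟩ := R.blk_B hj hj2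
  refine R.nb_fan (V := R.v (q + 1))
    (one_le_mul_of_one_le_of_one_le (one_le_W j) (one_le_pow₀ (R.one_le_M q)))
    h1 h2 ?_ (R.TR_pos q).le (R.TR_le_rho q) (by rw [h3]; exact he)
  have := R.v_succ' q
  omega

lemma le_of_thr {k : ℕ} {t : ℝ} (ht : 1 ≤ t) (h : ‖R.e k‖ * W k * t ≤ 1) : ‖R.e k‖ ≤ 1 := by
  refine le_trans ?_ h
  have h1 := one_le_W k
  have h2 := norm_nonneg (R.e k)
  have h3 : ‖R.e k‖ ≤ ‖R.e k‖ * W k := by nlinarith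
  have h4 : ‖R.e k‖ * W k ≤ ‖R.e k‖ * W k * t := by
    have : 0 ≤ ‖R.e k‖ * W k := by positivity
    nlinarith
  linarith

/-- change of threshold -/
lemma thr_mono {k : ℕ} {s t : ℝ} (hst : s ≤ t) (h : ‖R.e k‖ * W k * t ≤ 1) :
    ‖R.e k‖ * W k * s ≤ 1 := by
  refine le_trans ?_ h
  have h1 := W_pos k
  gcongr

lemma norm_e_le_one (k : ℕ) : ‖R.e k‖ ≤ 1 := by
  induction k using Nat.strong_induction_on with
  | _ k ih =>
    rcases Nat.eq_zero_or_pos k with h0 | h0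
    · subst h0; rw [e_zero, norm_f]
    obtain ⟨q, hb⟩ := R.blocks h0
    have a1 := R.one_le_D q
    have a2 := R.one_le_M q
    rcases hb with ⟨c1, c2⟩ | ⟨j, hj, rfl⟩ | ⟨c1, c2⟩ | ⟨j, hj, hj2, rfl⟩
    · exact R.le_of_thr a1 (R.nb_L1 c1 c2)
    · refine R.le_of_thr (a1.trans (R.D_le_TA q)) (R.nb_A hj (ih j ?_))
      have := R.a_def q; omega
    · exact R.le_of_thr a2 (R.nb_L2 c1 c2)
    · refine R.le_of_thr (a2.trans (R.M_le_TR q)) (R.nb_B hj hj2 (ih j ?_))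
      have := R.m_def q; omega

lemma TA_le_M (q : ℕ) : R.TA q ≤ R.M q := (R.TA_le_lam' q).trans (R.lam_le_M q)

lemma TR_le_D (q : ℕ) : R.TR q ≤ R.D (q + 1) := (R.TR_le_rho' q).trans (R.rho_le_D q)

/-- domination by `D` -/
lemma domD {q k : ℕ} (hk : R.v q < k) : ‖R.e k‖ * W k * R.D q ≤ 1 := by
  have hg := R.le_g_of_lt hk
  refine R.thr_mono (R.D_mono hg) ?_
  have h1 := R.g_lt (i := k) (by omega)
  have h2 := R.le_g k
  rcases R.blocks_of h1 h2 with ⟨c1, c2⟩ | ⟨j, hj, hk'⟩ | ⟨c1, c2⟩ | ⟨j, hj, hj2, hk'⟩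
  · exact R.nb_L1 c1 c2
  · have := R.nb_A hj (R.norm_e_le_one j)
    rw [← hk'] at this
    exact R.thr_mono (R.D_le_TA _) this
  · exact R.thr_mono ((R.D_le_TA _).trans (R.TA_le_M _)) (R.nb_L2 c1 c2)
  · have := R.nb_B hj hj2 (R.norm_e_le_one j)
    rw [← hk'] at this
    exact R.thr_mono ((R.D_le_TA _).trans ((R.TA_le_M _).trans (R.M_le_TR _))) this

/-- domination from the a-fan on -/
lemma domA {q k : ℕ} (hk : R.a q ≤ k) : ‖R.e k‖ * W k * R.TA q ≤ 1 := by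
  have hv := R.v_lt_a q
  rcases lt_or_ge (R.v (q + 1)) k with c | c
  · exact R.thr_mono ((R.TA_le_M q).trans ((R.M_le_TR q).trans (R.TR_le_D q))) (R.domD c)
  · rcases R.blocks_of (q := q) (i := k) (by omega) c with
      ⟨c1, c2⟩ | ⟨j, hj, hk'⟩ | ⟨c1, c2⟩ | ⟨j, hj, hj2, hk'⟩
    · omega
    · rw [hk']
      exact R.nb_A hj (R.norm_e_le_one j)
    · exact R.thr_mono (R.TA_le_M _) (R.nb_L2 c1 c2)
    · rw [hk']
      exact R.thr_mono ((R.TA_le_M _).trans (R.M_le_TR _)) (R.nb_B hj hj2 (R.norm_e_le_one j))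

/-- domination after the a-fan -/
lemma domM {q k : ℕ} (hk : R.m q < k) : ‖R.e k‖ * W k * R.M q ≤ 1 := by
  have hv := R.v_lt_a q
  have hm := R.a_le_m q
  have hm' := R.m_def q
  have ha' := R.a_def q
  rcases lt_or_ge (R.v (q + 1)) k with c | c
  · exact R.thr_mono (((R.M_le_TR q).trans (R.TR_le_D q))) (R.domD c)
  · rcases R.blocks_of (q := q) (i := k) (by omega) c with
      ⟨c1, c2⟩ | ⟨j, hj, hk'⟩ | ⟨c1, c2⟩ | ⟨j, hj, hj2, hk'⟩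
    · omega
    · omega
    · exact R.nb_L2 c1 c2
    · rw [hk']
      exact R.thr_mono (R.M_le_TR _) (R.nb_B hj hj2 (R.norm_e_le_one j))

/-- domination from the b-fan on -/
lemma domR {q k : ℕ} (hk : R.m q + R.h q ≤ k) : ‖R.e k‖ * W k * R.TR q ≤ 1 := by
  have hv := R.v_lt_a q
  have hm := R.a_le_m q
  have hm' := R.m_def q
  have ha' := R.a_def q
  have hh' := R.h_def q
  rcases lt_or_ge (R.v (q + 1)) k with c | c
  · exact R.thr_mono (R.TR_le_D q) (R.domD c)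
  · rcases R.blocks_of (q := q) (i := k) (by omega) c with
      ⟨c1, c2⟩ | ⟨j, hj, hk'⟩ | ⟨c1, c2⟩ | ⟨j, hj, hj2, hk'⟩
    · omega
    · omega
    · omega
    · rw [hk']
      exact R.nb_B hj hj2 (R.norm_e_le_one j)

end Par

end Pool.Agent.W685.RT
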