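import Pool.Agent.W685.RT.Shift
import Pool.Agent.W685.RT.Head

/-!
The operator and the estimates for the tails.
-/

set_option autoImplicit false

noncomputable section

namespace Pool.Agent.W685.RT

open Finset

namespace Par

variable (R : Par)

lemma norm_fs_one_le (i : ℕ) : ‖R.fs i 1‖ ≤ 2 := by
  have h := R.fs_bound_one i (t := 1) le_rfl
  have h1 := one_le_W 1
  have h2 := norm_nonneg (R.fs i 1)
  nlinarith

/-- The operator. -/
def T : L1 →L[ℂ] L1 := mkOp (fun i => R.fs i 1) 2 (fun i => R.norm_fs_one_le i)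

lemma T_f (i : ℕ) : R.T (f i) = R.fs i 1 := mkOp_f _ _ _ i

lemma T_e (i : ℕ) : R.T (R.e i) = R.e (i + 1) := by
  induction i using Nat.strong_induction_on with
  | _ i ih =>
    rcases Nat.eq_zero_or_pos i with h0 | h0
    · subst h0
      rw [e_zero, T_f]
      unfold fs
      rw [al_zero, sg_zero]
      simp
    · have hal : ((R.al i : ℝ) : ℂ) ≠ 0 := by
        exact_mod_cast (R.al_pos i).ne'
      rw [R.e_eq h0, map_smul, map_add, map_smul, T_f, ih _ (R.rf_lt h0)]
      unfold fs
      rw [sub_add_cancel, smul_smul, inv_mul_cancel₀ hal, one_smul]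

lemma T_pow_e (n i : ℕ) : (R.T ^ n) (R.e i) = R.e (i + n) := by
  induction n generalizing i with
  | zero => simp
  | succ n ih =>
    rw [pow_succ, mul_apply_eq_comp, T_e, ih]
    congr 1
    omega

lemma T_pow_f (n i : ℕ) : (R.T ^ n) (f i) = R.fs i n := by
  rw [R.f_eq i, map_sub, map_smul, map_smul, T_pow_e, T_pow_e]
  rfl

lemma norm_T_pow_le (n : ℕ) : ‖R.T ^ n‖ ≤ 2 / 2 ^ (n ^ 2) := by
  rcases Nat.eq_zero_or_pos n with h0 | h0
  · subst h0
    have : ‖(R.T ^ 0 : L1 →L[ℂ] L1)‖ ≤ 1 := by
      rw [pow_zero]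
      exact ContinuousLinearMap.norm_id_le
    refine this.trans ?_
    norm_num
  · refine ContinuousLinearMap.opNorm_le_bound _ (by positivity) fun x => ?_
    refine op_norm_le (R.T ^ n) _ (fun i => ?_) x
    rw [T_pow_f]
    have h1 := R.fs_bound_one i (t := n) h0
    have h2 := W_pos n
    have h3 : (2 : ℝ) ^ (n ^ 2) = W n := rfl
    rw [h3, le_div_iff₀ h2, mul_comm]
    exact h1

/-- The tail estimate. -/
theorem tail_bound {q i t : ℕ} (hi : R.m q < i) (ht : R.m q + R.h q ≤ t) :
    R.rho q * R.M q * ‖(R.T ^ t) (f i - R.Pf q i)‖ ≤ 2 := by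
  have hM := R.one_le_M q
  have hr := R.one_le_rho q
  have hK1 : 1 ≤ R.rho q * R.M q := one_le_mul_of_one_le_of_one_le hr hM
  have hK0 : 0 ≤ R.rho q * R.M q := by linarith
  have hKr : R.rho q * R.M q ≤ R.rho q ^ 2 := by
    have := R.M_le_rho q
    nlinarith
  have hvs := R.v_succ' q
  have hmd := R.m_def q
  have had := R.a_def q
  have hhd := R.h_def q
  have hhm := R.h_le_m q
  have hm2h := R.m_lt_2h q
  have ht1 : 1 ≤ t := by omega
  have hWt := one_le_W t
  -- it suffices to insert the weight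
  suffices hs : R.rho q * R.M q * W t * ‖(R.T ^ t) (f i - R.Pf q i)‖ ≤ 2 by
    refine le_trans ?_ hs
    have h1 : 0 ≤ R.rho q * R.M q * ‖(R.T ^ t) (f i - R.Pf q i)‖ := by positivity
    nlinarith
  have hPf : ¬ i ≤ R.m q := by omega
  rcases le_or_gt i (R.v (q + 1)) with c | c
  · -- same stage
    have hnl : ¬ R.late q i := fun hl => by have := R.late_lt hl; omega
    have hP0 : R.Pf q i = 0 := by unfold Pf; rw [if_neg hPf, if_neg hnl]
    rw [hP0, sub_zero, T_pow_f]
    have hal := R.al_le_rho c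
    have h1 : R.rho q * R.M q * W t * (R.al i * ‖R.e (i + t)‖) ≤ 1 := by
      refine R.hlp hK0 (R.al_pos i).le ?_ (by omega) (R.domD (q := q + 1) (by omega))
      refine le_trans ?_ (R.rhoBd_le_D' q)
      have := R.al_pos i
      gcongr
    rcases R.blocks_of (q := q) (i := i) (by omega) c with
      ⟨c1, c2⟩ | ⟨j, hj, hij⟩ | ⟨c1, c2⟩ | ⟨j, hj, hj2, hij⟩
    · omega
    · omega
    · have h2 := R.norm_fs_le i t
      rw [(R.blk_L2 c1 c2).2, zero_mul, add_zero] at h2
      calc R.rho q * R.M q * W t * ‖R.fs i t‖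
          ≤ R.rho q * R.M q * W t * (R.al i * ‖R.e (i + t)‖) := by gcongr
        _ ≤ 2 := by linarith
    · subst hij
      have h2 := R.norm_fs_le (R.m q + j) t
      rw [(R.blk_B hj hj2).2.2] at h2
      have h3 : R.rho q * R.M q * W t * (R.sg (R.m q + j) * ‖R.e (j + t)‖) ≤ 1 := by
        refine R.hlp hK0 (R.sg_nonneg _) ?_ (by omega) (R.domD (q := q + 1) (by omega))
        refine le_trans ?_ (R.rhoBd_le_D' q)
        have h4 := R.sg_le_al (R.m q + j)
        have h5 := R.sg_nonneg (R.m q + j)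
        have h6 := h4.trans hal
        gcongr
      calc R.rho q * R.M q * W t * ‖R.fs (R.m q + j) t‖
          ≤ R.rho q * R.M q * W t * (R.al (R.m q + j) * ‖R.e (R.m q + j + t)‖
            + R.sg (R.m q + j) * ‖R.e (j + t)‖) := by gcongr
        _ ≤ 2 := by rw [mul_add]; linarith
  · -- later stage
    have hg : q < R.g i := R.le_g_of_lt c
    have hKD : R.rho q * R.M q ≤ R.D (R.g i) := hKr.trans (R.rho_le_D_of_lt hg)
    by_cases hl : R.late q i
    · have hP : R.Pf q i = - (((R.sg i : ℝ) : ℂ) • R.e (R.rf i)) := by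
        unfold Pf; rw [if_neg hPf, if_pos hl]
      rw [hP, sub_neg_eq_add, map_add, T_pow_f, map_smul, T_pow_e]
      unfold fs
      rw [sub_add_cancel, norm_smul, Complex.norm_real, Real.norm_of_nonneg (R.al_pos i).le]
      obtain ⟨q', j, h1, h2, h3, rfl⟩ := hl
      have hv := R.v_mono h2
      have hmd' := R.m_def q'
      have had' := R.a_def q'
      have hal := R.al_le_lam (q := q') (i := R.a q' + j) (by omega)
      have := R.hlp (K := R.rho q * R.M q) (x := R.al (R.a q' + j)) (t := t) hK0 (R.al_pos _).le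
        ?_ (by omega) (R.domM (q := q') (k := R.a q' + j + t) (by omega))
      · linarith
      · refine le_trans ?_ (R.lamBd_le_M q')
        have h4 := R.al_pos (R.a q' + j)
        have h5 := (hKr.trans (R.rho_le_D_of_lt h1)).trans (R.D_le_lam q')
        have h6 := R.one_le_lam q'
        gcongr
    · have hP : R.Pf q i = 0 := by unfold Pf; rw [if_neg hPf, if_neg hl]
      rw [hP, sub_zero, T_pow_f]
      refine R.fs_bound (q := R.g i) hK1 (R.g_lt (by omega)) (R.le_g i) ht1 hKD ?_
      intro j hj hij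
      have hlq : q < R.l (R.g i) := by
        by_contra hcon
        exact hl ⟨R.g i, j, hg, by omega, hj, hij⟩
      obtain ⟨p, hp⟩ : ∃ p, R.l (R.g i) = p + 1 := ⟨R.l (R.g i) - 1, by omega⟩
      refine ⟨?_, fun _ => ?_⟩
      · rw [hp] at hj ⊢
        refine R.sgD' hj (hKr.trans ?_)
        have := R.rho_mono (show q ≤ p by omega)
        gcongr
      · have hgq : q ≤ R.g (j + t) := R.le_g_of_lt (by omega)
        have := R.rho_mono hgq
        refine hKr.trans ?_
        gcongr

end Par

end Pool.Agent.W685.RT
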