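import Pool.Agent.W685.RT.Norms

/-!
Norm estimates for the shifts of the unit vectors.
-/

set_option autoImplicit false

noncomputable section

namespace Pool.Agent.W685.RT

open Finset

namespace Par

variable (R : Par)

/-- `T ^ t (f i)` -/
def fs (i t : ℕ) : L1 :=
  ((R.al i : ℝ) : ℂ) • R.e (i + t) - ((R.sg i : ℝ) : ℂ) • R.e (R.rf i + t)

lemma norm_fs_le (i t : ℕ) :
    ‖R.fs i t‖ ≤ R.al i * ‖R.e (i + t)‖ + R.sg i * ‖R.e (R.rf i + t)‖ := by
  unfold fs
  refine (norm_sub_le _ _).trans ?_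
  rw [norm_smul, norm_smul, Complex.norm_real, Complex.norm_real,
    Real.norm_of_nonneg (R.al_pos i).le, Real.norm_of_nonneg (R.sg_nonneg i)]

lemma fs_eq_of {i t : ℕ} {c : ℝ} (h1 : R.al i = c * R.al (i + t)) (h2 : R.sg i = c * R.sg (i + t))
    (h3 : R.rf (i + t) = R.rf i + t) : R.fs i t = (c : ℂ) • f (i + t) := by
  unfold fs
  rw [R.f_eq (i + t), h1, h2, h3, smul_sub, smul_smul, smul_smul]
  push_cast
  rfl

/-- first tool -/
lemma hlp {K x thr : ℝ} {t k : ℕ} (hK : 0 ≤ K) (hx : 0 ≤ x) (hKx : K * x ≤ thr) (htk : t ≤ k)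
    (hk : ‖R.e k‖ * W k * thr ≤ 1) : K * W t * (x * ‖R.e k‖) ≤ 1 := by
  refine le_trans ?_ hk
  have h1 := W_mono htk
  have h2 := W_pos t
  calc K * W t * (x * ‖R.e k‖) = (K * x) * (W t * ‖R.e k‖) := by ring
    _ ≤ thr * (W k * ‖R.e k‖) := by
        have : 0 ≤ thr := le_trans (by positivity) hKx
        gcongr
    _ = _ := by ring

/-- second tool -/
lemma hlp2 {K y : ℝ} {i t : ℕ} (hy : 1 ≤ y) (hKy : K ≤ y) (ht : 1 ≤ t)
    (hk : ‖R.e (i + t)‖ * (W (i + t) * y ^ (i + t)) ≤ 1) :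
    K * W t * (W i * y ^ i * ‖R.e (i + t)‖) ≤ 1 := by
  refine le_trans ?_ hk
  have h1 := W_mul i t
  have h2 := W_pos t
  have h3 := W_pos i
  have h4 : K ≤ y ^ t := hKy.trans (pow_aux (by omega) hy)
  calc K * W t * (W i * y ^ i * ‖R.e (i + t)‖) = K * ((W i * W t) * (y ^ i * ‖R.e (i + t)‖)) := by
        ring
    _ ≤ y ^ t * (W (i + t) * (y ^ i * ‖R.e (i + t)‖)) := by gcongr
    _ = _ := by rw [pow_add]; ring

lemma ratio {K y : ℝ} {i t : ℕ} (hy : 1 ≤ y) (hKy : K ≤ y) (ht : 1 ≤ t) :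
    K * W t * (W i * y ^ i / (W (i + t) * y ^ (i + t))) ≤ 1 := by
  have h1 := W_mul i t
  have h2 := W_pos t
  have h3 := W_pos i
  have h5 := W_pos (i + t)
  have h4 : K ≤ y ^ t := hKy.trans (pow_aux (by omega) hy)
  rw [← mul_div_assoc, div_le_one (by positivity)]
  calc K * W t * (W i * y ^ i) = K * ((W i * W t) * y ^ i) := by ring
    _ ≤ y ^ t * (W (i + t) * y ^ i) := by gcongr
    _ = _ := by rw [pow_add]; ring

lemma sgD {p j : ℕ} (hj : j ≤ R.v p) : R.w j * (p + 1) ≤ R.D p := by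
  rcases Nat.eq_zero_or_pos p with h0 | h0
  · subst h0
    rw [R.v_zero] at hj
    have : j = 0 := by omega
    subst this
    rw [w_zero]
    simpa using R.one_le_D 0
  · obtain ⟨p', rfl⟩ : ∃ p', p = p' + 1 := ⟨p - 1, by omega⟩
    have h1 := R.w_le_Bd_rho hj
    have h2 := R.rhoBd_le_D' p'
    have h3 := R.one_le_rho p'
    have h4 := one_le_Bd (v := R.v) (q := p') h3
    have h5 : Bd R.v p' (R.rho p') ≤ R.rho p' ^ 2 * Bd R.v p' (R.rho p') := by
      have : 1 ≤ R.rho p' ^ 2 := one_le_pow₀ h3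
      nlinarith
    push_cast
    have h6 : R.w j * ((p' : ℝ) + 1 + 1) = R.w j * (p' + 2) := by ring
    rw [h6]
    linarith

lemma sgD' {p j : ℕ} (hj : j ≤ R.v (p + 1)) {K : ℝ} (hK : K ≤ R.rho p ^ 2) :
    K * (R.w j * ((p + 1 : ℕ) + 1)) ≤ R.D (p + 1) := by
  have h1 := R.w_le_Bd_rho hj
  have h2 := R.rhoBd_le_D' p
  push_cast
  have h6 : R.w j * ((p : ℝ) + 1 + 1) = R.w j * (p + 2) := by ring
  rw [h6]
  refine le_trans ?_ h2
  have := R.w_pos j
  gcongr

/-- The main estimate for shifts. -/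
theorem fs_bound {q i t : ℕ} {K : ℝ} (hK : 1 ≤ K) (hi : R.v q < i) (hi2 : i ≤ R.v (q + 1))
    (ht : 1 ≤ t) (hKD : K ≤ R.D q)
    (hA : ∀ j, j ≤ R.v (R.l q) → i = R.a q + j → K * (R.w j * (R.l q + 1)) ≤ R.D (R.l q) ∧
      (j + t ≤ R.v (R.l q) → K ≤ R.rho (R.g (j + t)) ^ 2)) :
    K * W t * ‖R.fs i t‖ ≤ 2 := by
  have hK0 : 0 ≤ K := by linarith
  have hWt := W_pos t
  have hKM : K ≤ R.M q := hKD.trans ((R.D_le_lam q).trans (R.lam_le_M q))
  have hvs := R.v_succ' q
  have hmd := R.m_def q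
  have had := R.a_def q
  have hhd := R.h_def q
  have hhm := R.h_le_m q
  rcases R.blocks_of hi hi2 with ⟨c1, c2⟩ | ⟨j, hj, hij⟩ | ⟨c1, c2⟩ | ⟨j, hj, hj2, hij⟩
  · -- first layoff
    obtain ⟨hal, hsg⟩ := R.blk_L1 c1 c2
    have h1 := R.norm_fs_le i t
    rw [hsg, zero_mul, add_zero] at h1
    have h2 : K * W t * (R.al i * ‖R.e (i + t)‖) ≤ 1 := by
      rcases lt_or_ge (i + t) (R.a q) with c | c
      · rw [hal]
        exact R.hlp2 (R.one_le_D q) hKD ht (R.nb_L1' (by omega) c)
      · refine R.hlp hK0 (R.al_pos i).le ?_ (by omega) (R.domA c)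
        unfold TA
        have := R.al_le_D c2
        have := R.al_pos i
        have := R.one_le_D q
        gcongr
    calc K * W t * ‖R.fs i t‖ ≤ K * W t * (R.al i * ‖R.e (i + t)‖) := by gcongr
      _ ≤ 2 := by linarith
  · -- a-fan
    obtain ⟨hA1, hA2⟩ := hA j hj hij
    subst hij
    obtain ⟨hal, hsg, hrf⟩ := R.blk_A hj
    rcases le_or_gt (j + t) (R.v (R.l q)) with c | c
    · obtain ⟨hal', hsg', hrf'⟩ := R.blk_A c
      have hw := R.w_growth j t
      have hwp := R.w_pos j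
      have hwp' := R.w_pos (j + t)
      have hKr := hA2 c
      have e1 : R.fs (R.a q + j) t = ((R.w j / R.w (j + t) : ℝ) : ℂ) • f (R.a q + j + t) := by
        refine R.fs_eq_of ?_ ?_ ?_
        · rw [hal, add_assoc, hal']; field_simp
        · rw [hsg, add_assoc, hsg']; field_simp
        · rw [hrf, add_assoc, hrf']
      rw [e1, norm_smul, norm_f, mul_one, Complex.norm_real, Real.norm_of_nonneg (by positivity)]
      have h4 : K ≤ (R.rho (R.g (j + t)) ^ 2) ^ t :=
        hKr.trans (pow_aux (by omega) (one_le_pow₀ (R.one_le_rho _)))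
      have h5 : K * W t * R.w j ≤ R.w (j + t) := by
        refine le_trans ?_ hw
        calc K * W t * R.w j = R.w j * (W t * K) := by ring
          _ ≤ _ := by gcongr
      have : K * W t * (R.w j / R.w (j + t)) ≤ 1 := by
        rw [← mul_div_assoc, div_le_one hwp']
        exact h5
      linarith
    · have h1 := R.norm_fs_le (R.a q + j) t
      rw [hrf] at h1
      have h2 : K * W t * (R.al (R.a q + j) * ‖R.e (R.a q + j + t)‖) ≤ 1 := by
        refine R.hlp hK0 (R.al_pos _).le ?_ (by omega) (R.domM (q := q) (by omega))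
        refine le_trans ?_ (R.lamBd_le_M q)
        have h3 := R.al_le_lam (q := q) (i := R.a q + j) (by omega)
        have h4 := R.al_pos (R.a q + j)
        have h5 := hKD.trans (R.D_le_lam q)
        have h6 := R.one_le_lam q
        gcongr
      have h3 : K * W t * (R.sg (R.a q + j) * ‖R.e (j + t)‖) ≤ 1 := by
        refine R.hlp hK0 (R.sg_nonneg _) ?_ (by omega) (R.domD (q := R.l q) (by omega))
        rw [hsg]
        exact hA1
      calc K * W t * ‖R.fs (R.a q + j) t‖
          ≤ K * W t * (R.al (R.a q + j) * ‖R.e (R.a q + j + t)‖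
            + R.sg (R.a q + j) * ‖R.e (j + t)‖) := by gcongr
        _ ≤ 2 := by rw [mul_add]; linarith
  · -- second layoff
    obtain ⟨hal, hsg⟩ := R.blk_L2 c1 c2
    have h1 := R.norm_fs_le i t
    rw [hsg, zero_mul, add_zero] at h1
    have h2 : K * W t * (R.al i * ‖R.e (i + t)‖) ≤ 1 := by
      rcases lt_or_ge (i + t) (R.m q + R.h q) with c | c
      · rw [hal]
        exact R.hlp2 (R.one_le_M q) hKM ht (R.nb_L2' (by omega) c)
      · refine R.hlp hK0 (R.al_pos i).le ?_ (by omega) (R.domR c)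
        unfold TR
        have := R.al_le_M c2
        have := R.al_pos i
        have := R.one_le_M q
        gcongr
    calc K * W t * ‖R.fs i t‖ ≤ K * W t * (R.al i * ‖R.e (i + t)‖) := by gcongr
      _ ≤ 2 := by linarith
  · -- b-fan
    subst hij
    obtain ⟨hal, hsg, hrf⟩ := R.blk_B hj hj2
    have hM := R.one_le_M q
    have hr := R.one_le_rho q
    have hWj := W_pos j
    rcases le_or_gt (j + t) (R.m q) with c | c
    · obtain ⟨hal', hsg', hrf'⟩ := R.blk_B (q := q) (j := j + t) (by omega) c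
      have hWj' := W_pos (j + t)
      have e1 : R.fs (R.m q + j) t
          = ((W j * R.M q ^ j / (W (j + t) * R.M q ^ (j + t)) : ℝ) : ℂ) • f (R.m q + j + t) := by
        refine R.fs_eq_of ?_ ?_ ?_
        · rw [hal, add_assoc, hal']; field_simp
        · rw [hsg, add_assoc, hsg']; field_simp
        · rw [hrf, add_assoc, hrf']
      rw [e1, norm_smul, norm_f, mul_one, Complex.norm_real, Real.norm_of_nonneg (by positivity)]
      have := ratio (i := j) hM hKM ht
      linarith
    · have h1 := R.norm_fs_le (R.m q + j) t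
      rw [hrf] at h1
      have h2 : K * W t * (R.al (R.m q + j) * ‖R.e (R.m q + j + t)‖) ≤ 1 := by
        refine R.hlp hK0 (R.al_pos _).le ?_ (by omega) (R.domD (q := q + 1) (by omega))
        refine le_trans ?_ (R.rhoBd_le_D' q)
        have h3 := R.al_le_rho (q := q) (i := R.m q + j) (by omega)
        have h4 := R.al_pos (R.m q + j)
        have h5 := hKM.trans ((R.M_le_rho q).trans (R.rho_le_sq q))
        gcongr
      have h3 : K * W t * (R.sg (R.m q + j) * ‖R.e (j + t)‖) ≤ 1 := by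
        rcases lt_or_ge (j + t) (R.m q + R.h q) with c' | c'
        · rw [hsg]
          exact R.hlp2 (R.one_le_M q) hKM ht (R.nb_L2' (by omega) c')
        · refine R.hlp hK0 (R.sg_nonneg _) ?_ (by omega) (R.domR c')
          rw [hsg]
          unfold TR
          have := R.Wpow_le_Bd' (q := q) (j := j) hM (by omega)
          gcongr
      calc K * W t * ‖R.fs (R.m q + j) t‖
          ≤ K * W t * (R.al (R.m q + j) * ‖R.e (R.m q + j + t)‖
            + R.sg (R.m q + j) * ‖R.e (j + t)‖) := by gcongr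
        _ ≤ 2 := by rw [mul_add]; linarith

/-- all shifts -/
theorem fs_bound_one (i : ℕ) {t : ℕ} (ht : 1 ≤ t) : W t * ‖R.fs i t‖ ≤ 2 := by
  rcases Nat.eq_zero_or_pos i with h0 | h0
  · subst h0
    have h1 : R.fs 0 t = R.e t := by
      unfold fs
      rw [al_zero, sg_zero]
      simp
    rw [h1]
    have h2 := R.domD (q := 0) (k := t) (by rw [R.v_zero]; omega)
    have h3 := R.one_le_D 0
    have h4 := W_pos t
    have h5 : 0 ≤ ‖R.e t‖ * W t := by positivity
    nlinarith
  · have := R.fs_bound (q := R.g i) (i := i) (t := t) (K := 1) le_rfl (R.g_lt h0) (R.le_g i) ht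
      (R.one_le_D _) (by
        intro j hj _
        refine ⟨?_, fun _ => one_le_pow₀ (R.one_le_rho _)⟩
        rw [one_mul]
        exact R.sgD hj)
    simpa using this

end Par

end Pool.Agent.W685.RT
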